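import Pool.Agent.Run7.h520.LW.Num

/-!
# Structures of points and letters, the predimension, closed sets, the class
-/

set_option linter.all false

namespace Run7.h520.LW
open Classical

/-- the fixed parameters -/
noncomputable def PP : Par := Classical.choice exists_par

noncomputable def g (j : ℕ) : ℕ := PP.g j
noncomputable def N (j : ℕ) : ℕ := PP.N j
noncomputable def K (j : ℕ) : ℕ := PP.K j
noncomputable def q (j : ℕ) : ℝ := PP.q j
noncomputable def w (j : ℕ) : ℝ := PP.w j
noncomputable def f (n : ℕ) : ℝ := PP.f n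
/-- the weight of a vertex -/
noncomputable def wt : ℝ := 1 - w 0
/-- the cost of an incidence of level `j` -/
noncomputable def a (j : ℕ) : ℝ := q j - 2 * q (j + 1)

/-- A structure: points (`pt`) and letters (not `pt`), a graph `adj` on the points, and a relation
between a point and a list of letters. -/
structure Str (V : Type) where
  pt : V → Prop
  adj : V → V → Prop
  inc : V → List V → Prop

namespace Str

variable {V : Type} (G : Str V)

/-- The symmetric irreflexive graph on the points. -/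
def R (x y : V) : Prop := G.pt x ∧ G.pt y ∧ x ≠ y ∧ (G.adj x y ∨ G.adj y x)

/-- The point `p` is on the line `l = (j, (s 1, ..., s (g j)))`: all the initial segments of `l`
of lengths `g 0, ..., g j` are related to `p`. -/
def On (p : V) (l : ℕ × List V) : Prop :=
  G.pt p ∧ l.2.length = g l.1 ∧ l.2.Nodup ∧ (∀ x ∈ l.2, ¬ G.pt x) ∧
    ∀ i ≤ l.1, G.inc p (l.2.take (g i))

end Str

/-- the possible lines with letters in `X` -/
def IsLn {V : Type} (X : Finset V) (l : ℕ × List V) : Prop :=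
  l.2.length = g l.1 ∧ l.2.Nodup ∧ ∀ x ∈ l.2, x ∈ X

theorem g_lt (j : ℕ) : j < g j := by
  have h : ∀ j, 64 + j ≤ g j := by
    intro j
    induction j with
    | zero => exact PP.g0
    | succ j ih =>
      have := PP.gmono j
      have e : g j = PP.g j := rfl
      have e' : g (j + 1) = PP.g (j + 1) := rfl
      omega
  have := h j
  omega

theorem isLn_finite {V : Type} (X : Finset V) : {l : ℕ × List V | IsLn X l}.Finite := by
  have h1 : {l : List V | l.Nodup ∧ ∀ x ∈ l, x ∈ X}.Finite := by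
    have h2 : {l : List V | l.Nodup ∧ ∀ x ∈ l, x ∈ X} ⊆
        ⋃ n ∈ Finset.range (X.card + 1), {l : List V | l.length = n ∧ ∀ x ∈ l, x ∈ X} := by
      intro l hl
      simp only [Set.mem_iUnion, Finset.mem_range, Set.mem_setOf_eq]
      refine ⟨l.length, ?_, rfl, hl.2⟩
      have : l.toFinset ⊆ X := fun x hx => hl.2 x (List.mem_toFinset.1 hx)
      have h3 := Finset.card_le_card this
      rw [List.toFinset_card_of_nodup hl.1] at h3
      omega
    refine Set.Finite.subset ?_ h2
    refine Set.Finite.biUnion (Finset.finite_toSet _) fun n _ => ?_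
    have := List.finite_length_eq {x : V // x ∈ X} n
    refine (this.image (List.map Subtype.val)).subset ?_
    intro l hl
    refine ⟨l.attach.map fun x => ⟨x.1, hl.2 x.1 x.2⟩, ?_, ?_⟩
    · simp [hl.1]
    · simp [List.map_map, Function.comp_def]
  have h4 : {l : ℕ × List V | IsLn X l} ⊆
      (Finset.range (X.card + 1) : Set ℕ) ×ˢ {l : List V | l.Nodup ∧ ∀ x ∈ l, x ∈ X} := by
    rintro ⟨j, l⟩ ⟨h5, h6, h7⟩
    refine ⟨?_, h6, h7⟩
    have : l.toFinset ⊆ X := fun x hx => h7 x (List.mem_toFinset.1 hx)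
    have h3 := Finset.card_le_card this
    rw [List.toFinset_card_of_nodup h6] at h3
    have h8 := g_lt j
    have h5' : l.length = g j := h5
    have h3' : l.length ≤ X.card := h3
    simp only [Finset.coe_range, Set.mem_Iio]
    omega
  exact ((Finset.finite_toSet _).prod h1).subset h4

/-- the finite set of the possible lines with letters in `X` -/
noncomputable def lin {V : Type} (X : Finset V) : Finset (ℕ × List V) := (isLn_finite X).toFinset

theorem mem_lin {V : Type} {X : Finset V} {l : ℕ × List V} : l ∈ lin X ↔ IsLn X l := by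
  unfold lin; simp

namespace Str

variable {V : Type} (G : Str V)

/-- the points of `X` on the line `l` -/
noncomputable def pts (l : ℕ × List V) (X : Finset V) : Finset V := X.filter fun p => G.On p l

/-- the (ordered) edges in `X` -/
noncomputable def ed (X : Finset V) : Finset (V × V) := (X ×ˢ X).filter fun p => G.R p.1 p.2

/-- the incidences in `X` -/
noncomputable def ic (X : Finset V) : Finset (V × (ℕ × List V)) :=
  (X ×ˢ lin X).filter fun p => G.On p.1 p.2

/-- the flags in `X` -/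
noncomputable def fl (X : Finset V) : Finset ((V × V) × (ℕ × List V)) :=
  (G.ed X ×ˢ lin X).filter fun p => G.On p.1.1 p.2 ∧ G.On p.1.2 p.2

/-- The predimension. -/
noncomputable def dl (X : Finset V) : ℝ :=
  wt * X.card - (∑ p ∈ G.ic X, a p.2.1) - w 0 * (G.ed X).card + ∑ p ∈ G.fl X, q (p.2.1 + 1)

/-- the number of lines of level `j` in `X` containing `p` -/
noncomputable def nl (j : ℕ) (p : V) (X : Finset V) : ℕ :=
  ((lin X).filter fun l => l.1 = j ∧ G.On p l).card

/-- `X` is P-closed in `Z`. -/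
structure PC (X : Finset V) (Z : Set V) : Prop where
  sub : ↑X ⊆ Z
  g1 : ∀ l : ℕ × List V, (∀ x ∈ l.2, x ∈ Z) → N l.1 ≤ (G.pts l X).card → ∀ x ∈ l.2, x ∈ X
  g2 : ∀ p ∈ Z, p ∉ X → ∀ j, G.nl j p X ≤ 1

/-- sparsity -/
def C1 (Z : Set V) : Prop :=
  ∀ (j : ℕ) (S Y : Finset V), ↑S ⊆ Z → ↑Y ⊆ Z →
    ∑ p ∈ Y, (2 * (G.nl j p S : ℤ) - 3) ≤ K j * S.card

/-- The class of structures. -/
structure Cls (Z : Set V) : Prop where
  c1 : G.C1 Z
  c2 : ∀ X : Finset V, G.PC X Z → f X.card ≤ G.dl X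

/-- `A` is closed in `Z`. -/
def Cl (A : Finset V) (Z : Set V) : Prop :=
  G.PC A Z ∧ ∀ B : Finset V, G.PC B Z → A ⊂ B → G.dl A < G.dl B

/-- `H` is the P-closure of `S` in `Z`. -/
def IsP (S H : Finset V) (Z : Set V) : Prop :=
  G.PC H Z ∧ S ⊆ H ∧ ∀ H' : Finset V, G.PC H' Z → S ⊆ H' → H ⊆ H'

/-- The ambient sets in which closures exist. -/
structure Amb (Z : Set V) : Prop where
  c1 : G.C1 Z
  fin : ∀ S : Finset V, ↑S ⊆ Z → ∃ C : Finset V, S ⊆ C ∧ G.Cl C Z

/-- `C` is the closure of `S` in `Z`. -/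
def IsC (S C : Finset V) (Z : Set V) : Prop :=
  G.Cl C Z ∧ S ⊆ C ∧ ∀ C' : Finset V, G.Cl C' Z → S ⊆ C' → C ⊆ C'

/-- incidences of `A ∪ B` neither in `A` nor in `B` -/
noncomputable def nic [DecidableEq V] (A B : Finset V) : Finset (V × (ℕ × List V)) :=
  (G.ic (A ∪ B)).filter fun p => p ∉ G.ic A ∧ p ∉ G.ic B

/-- edges of `A ∪ B` neither in `A` nor in `B` -/
noncomputable def ned [DecidableEq V] (A B : Finset V) : Finset (V × V) :=
  (G.ed (A ∪ B)).filter fun p => p ∉ G.ed A ∧ p ∉ G.ed B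

/-- flags of `A ∪ B` neither in `A` nor in `B` -/
noncomputable def nfl [DecidableEq V] (A B : Finset V) : Finset ((V × V) × (ℕ × List V)) :=
  (G.fl (A ∪ B)).filter fun p => p ∉ G.fl A ∧ p ∉ G.fl B

/-- the weight of the lines of `X` containing the two points of `e` -/
noncomputable def cm (X : Finset V) (e : V × V) : ℝ :=
  ∑ l ∈ (lin X).filter (fun l => G.On e.1 l ∧ G.On e.2 l), q (l.1 + 1)

/-- the levels of the lines of `A` or of `B` containing the two points of `e` -/
noncomputable def lv [DecidableEq V] (A B : Finset V) (e : V × V) : Finset ℕ :=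
  ((lin A ∪ lin B).filter (fun l => G.On e.1 l ∧ G.On e.2 l)).image Prod.fst

end Str

/-- `φ` is an embedding of the structure `G` on `S` into `H`. -/
structure Emb {V W : Type} (G : Str V) (H : Str W) (S : Finset V) (φ : V → W) : Prop where
  inj : ∀ x ∈ S, ∀ y ∈ S, φ x = φ y → x = y
  pt : ∀ x ∈ S, (H.pt (φ x) ↔ G.pt x)
  R : ∀ x ∈ S, ∀ y ∈ S, (H.R (φ x) (φ y) ↔ G.R x y)
  on : ∀ x ∈ S, ∀ l : ℕ × List V, (∀ y ∈ l.2, y ∈ S) →
    (H.On (φ x) (l.1, l.2.map φ) ↔ G.On x l)

/-- Two finite sets glued over their intersection; there may be additional edges. -/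
structure T2 {V : Type} [DecidableEq V] (S : Str V) (D U : Finset V) : Prop where
  inc : ∀ p ∈ D ∪ U, ∀ l ∈ lin (D ∪ U), S.On p l → (p ∈ D ∧ l ∈ lin D) ∨ (p ∈ U ∧ l ∈ lin U)
  d1 : S.C1 D
  u1 : S.C1 U
  cD : S.Cl (D ∩ U) D
  cU : S.Cl (D ∩ U) U

/-- Rich structures. -/
structure Rich (M : Str ℕ) (Ω : Set ℕ) : Prop where
  k : M.Cls Ω
  fin : ∀ S : Finset ℕ, ↑S ⊆ Ω → ∃ C : Finset ℕ, S ⊆ C ∧ M.Cl C Ω
  rich : ∀ (W : Type) (H : Str W) (A Z : Finset W), H.Cls Z → H.Cl A Z → ∀ φ : W → ℕ,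
    Emb H M A φ → M.Cl (A.image φ) Ω →
      ∃ ψ : W → ℕ, Emb H M Z ψ ∧ (∀ x ∈ A, ψ x = φ x) ∧ M.Cl (Z.image ψ) Ω

end Run7.h520.LW
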