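import Pool.Agent.Run7.h520.LW.I2

/-! # Piece CONF, first part: general facts -/

set_option autoImplicit false
set_option linter.all false

namespace Run7.h520.LW
open Classical

theorem rg_eq {α : Type} [Finite α] (s : α → ℕ) (v : ℕ) : v ∈ rg s ↔ ∃ i, s i = v := by
  unfold rg
  rw [dif_pos (Set.finite_range s), Set.Finite.mem_toFinset, Set.mem_range]

theorem mem_rg {α : Type} [Finite α] (s : α → ℕ) (i : α) : s i ∈ rg s := (rg_eq s _).2 ⟨i, rfl⟩

theorem rg_sub {α : Type} [Finite α] {s : α → ℕ} {Z : Set ℕ} (hs : ∀ i, s i ∈ Z) : ↑(rg s) ⊆ Z := by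
  intro v hv
  obtain ⟨i, rfl⟩ := (rg_eq s v).1 hv
  exact hs i

theorem rg_sub' {α : Type} [Finite α] {s : α → ℕ} {Z : Finset ℕ} (hs : ∀ i, s i ∈ Z) : rg s ⊆ Z := by
  intro v hv
  obtain ⟨i, rfl⟩ := (rg_eq s v).1 hv
  exact hs i

theorem rg_elim {α β : Type} [Finite α] [Finite β] (s : α → ℕ) (t : β → ℕ) :
    rg (Sum.elim s t) = rg s ∪ rg t := by
  ext v
  rw [Finset.mem_union, rg_eq, rg_eq, rg_eq]
  constructor
  · rintro ⟨i | i, rfl⟩
    · exact Or.inl ⟨i, rfl⟩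
    · exact Or.inr ⟨i, rfl⟩
  · rintro (⟨i, rfl⟩ | ⟨i, rfl⟩)
    · exact ⟨Sum.inl i, rfl⟩
    · exact ⟨Sum.inr i, rfl⟩

theorem card_rg {α : Type} [Finite α] (s : α → ℕ) : (rg s).card ≤ Nat.card α := by
  haveI := Fintype.ofFinite α
  have h1 : rg s = Finset.univ.image s := by
    ext v
    rw [rg_eq]
    simp
  rw [h1, Nat.card_eq_fintype_card]
  exact Finset.card_image_le

section D

variable {M : Str ℕ} {Ω : Set ℕ} (h : Rich M Ω) (hc : S_CLO) (hs : S_SIM M Ω)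

include hs in
theorem clo_cl {S : Finset ℕ} (hS : ↑S ⊆ Ω) : M.Cl (clo M Ω S) Ω := (hs.isC hS).1
include hs in
theorem sub_clo {S : Finset ℕ} (hS : ↑S ⊆ Ω) : S ⊆ clo M Ω S := (hs.isC hS).2.1
include hs in
theorem clo_le {S C : Finset ℕ} (hS : S ⊆ C) (hC : M.Cl C Ω) : clo M Ω S ⊆ C :=
  (hs.isC ((Finset.coe_subset.2 hS).trans hC.sub)).2.2 C hC hS
include hs in
theorem clo_mono {S T : Finset ℕ} (hST : S ⊆ T) (hT : ↑T ⊆ Ω) : clo M Ω S ⊆ clo M Ω T :=
  clo_le hs (hST.trans (sub_clo hs hT)) (clo_cl hs hT)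
include hs in
theorem clo_self {E : Finset ℕ} (hE : M.Cl E Ω) : clo M Ω E = E :=
  Finset.Subset.antisymm (clo_le hs (Finset.Subset.refl _) hE) (sub_clo hs hE.sub)

include hs in
theorem isC_self {E : Finset ℕ} (hE : M.Cl E Ω) : M.IsC E E Ω :=
  ⟨hE, Finset.Subset.refl _, fun _ _ h => h⟩

theorem coe_union_sub {S T : Finset ℕ} {Ω : Set ℕ} (hS : ↑S ⊆ Ω) (hT : ↑T ⊆ Ω) :
    ↑(S ∪ T) ⊆ Ω := by
  rw [Finset.coe_union]; exact Set.union_subset hS hT

include h hc hs in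
/-- submodularity of the dimension -/
theorem dl_clo_union {X Y : Finset ℕ} (hX : M.Cl X Ω) (hY : M.Cl Y Ω) :
    M.dl (clo M Ω (X ∪ Y)) + M.dl (X ∩ Y) ≤ M.dl X + M.dl Y :=
  hc.isC_union_le h.amb (isC_self hs hX) (isC_self hs hY)
    (hs.isC (coe_union_sub hX.sub hY.sub))

end D

/-! ### ultrafilters -/

/-- a sequence in a finite set is eventually constant -/
theorem ev_const (F : Finset ℕ) (f : ℕ → ℕ)
    (hf : ∀ᶠ t in (Filter.hyperfilter ℕ : Filter ℕ), f t ∈ F) :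
    ∃ y, ∀ᶠ t in (Filter.hyperfilter ℕ : Filter ℕ), f t = y := by
  by_contra hcon
  have h1 : ∀ y, ∀ᶠ t in (Filter.hyperfilter ℕ : Filter ℕ), f t ≠ y := by
    intro y
    have h2 : ¬ ∀ᶠ t in (Filter.hyperfilter ℕ : Filter ℕ), f t = y := fun h => hcon ⟨_, h⟩
    rw [← Ultrafilter.eventually_not] at h2
    exact h2
  have h2 : ∀ᶠ t in (Filter.hyperfilter ℕ : Filter ℕ), ∀ y ∈ F, f t ≠ y :=
    (Filter.eventually_all_finset F).2 fun y _ => h1 y
  obtain ⟨t, ht1, ht2⟩ := (hf.and h2).exists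
  exact ht2 _ ht1 rfl

/-- pairwise related elements -/
theorem ev_pairs (R : ℕ → ℕ → Prop) (hR : ∀ i j, R i j → R j i) (p : ℕ → Prop)
    (hp : ∀ᶠ i in (Filter.hyperfilter ℕ : Filter ℕ), p i)
    (h : ∀ᶠ i in (Filter.hyperfilter ℕ : Filter ℕ),
      ∀ᶠ j in (Filter.hyperfilter ℕ : Filter ℕ), R i j) (k : ℕ) :
    ∃ T : Finset ℕ, T.card = k ∧ (∀ i ∈ T, p i) ∧ ∀ i ∈ T, ∀ j ∈ T, i ≠ j → R i j := by
  have key : ∀ k : ℕ, ∃ T : Finset ℕ, T.card = k ∧ (∀ i ∈ T, p i ∧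
      ∀ᶠ j in (Filter.hyperfilter ℕ : Filter ℕ), R i j) ∧ ∀ i ∈ T, ∀ j ∈ T, i ≠ j → R i j := by
    intro k
    induction k with
    | zero => exact ⟨∅, rfl, by simp, by simp⟩
    | succ k ih =>
      obtain ⟨T, hT, h1, h2⟩ := ih
      have h3 : ∀ᶠ j in (Filter.hyperfilter ℕ : Filter ℕ), ∀ i ∈ T, R i j :=
        (Filter.eventually_all_finset T).2 fun i hi => (h1 i hi).2
      have h4 : ∀ᶠ j in (Filter.hyperfilter ℕ : Filter ℕ), j ∉ T := by
        have : ((↑T : Set ℕ)ᶜ) ∈ (Filter.hyperfilter ℕ : Filter ℕ) :=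
          Filter.compl_mem_hyperfilter_of_finite T.finite_toSet
        filter_upwards [this] with j hj hj'
        exact hj (Finset.mem_coe.2 hj')
      obtain ⟨j, h5, h6, h7, h8⟩ := (hp.and (h.and (h3.and h4))).exists
      refine ⟨insert j T, by rw [Finset.card_insert_of_notMem h8, hT], ?_, ?_⟩
      · intro i hi
        rcases Finset.mem_insert.1 hi with rfl | hi
        · exact ⟨h5, h6⟩
        · exact h1 i hi
      · intro i hi i' hi' hne
        rcases Finset.mem_insert.1 hi with e | hi1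
        · rcases Finset.mem_insert.1 hi' with e' | hi2
          · exact absurd (e.trans e'.symm) hne
          · rw [e]; exact hR _ _ (h7 i' hi2)
        · rcases Finset.mem_insert.1 hi' with e' | hi2
          · rw [e']; exact h7 i hi1
          · exact h2 i hi1 i' hi2 hne
  obtain ⟨T, h1, h2, h3⟩ := key k
  exact ⟨T, h1, fun i hi => (h2 i hi).1, h3⟩

theorem ev_ge (n : ℕ) : ∀ᶠ i in (Filter.hyperfilter ℕ : Filter ℕ), n ≤ i := by
  have : ((Finset.range n : Set ℕ)ᶜ) ∈ (Filter.hyperfilter ℕ : Filter ℕ) :=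
    Filter.compl_mem_hyperfilter_of_finite (Finset.range n).finite_toSet
  filter_upwards [this] with j hj
  by_contra hj'
  exact hj (Finset.mem_coe.2 (Finset.mem_range.2 (by omega)))

/-- in a sequence of injections of a finite set, most members are separated -/
theorem ev_sep (B : Finset ℕ) (g : ℕ → ℕ → ℕ)
    (hinj : ∀ n, ∀ x ∈ B, ∀ y ∈ B, g n x = g n y → x = y) :
    ∀ᶠ i in (Filter.hyperfilter ℕ : Filter ℕ), ∀ᶠ j in (Filter.hyperfilter ℕ : Filter ℕ),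
      ∀ x ∈ B, ∀ y ∈ B, g i x = g j y → x = y := by
  have h1 : ∀ y ∈ B, ∀ᶠ i in (Filter.hyperfilter ℕ : Filter ℕ), ∀ x ∈ B,
      ∀ᶠ j in (Filter.hyperfilter ℕ : Filter ℕ), g i x = g j y → x = y := by
    intro y hy
    by_cases hc : ∃ c, ∀ᶠ n in (Filter.hyperfilter ℕ : Filter ℕ), g n y = c
    · obtain ⟨c, hc⟩ := hc
      filter_upwards [hc] with i hi x hx
      filter_upwards [hc] with j hj hij
      apply hinj i x hx y hy
      rw [hij, hj, hi]
    · refine Filter.Eventually.of_forall fun i x hx => ?_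
      have h2 : ¬ ∀ᶠ n in (Filter.hyperfilter ℕ : Filter ℕ), g n y = g i x := fun h => hc ⟨_, h⟩
      rw [← Ultrafilter.eventually_not] at h2
      filter_upwards [h2] with j hj hij
      exact absurd hij.symm hj
  have h2 : ∀ᶠ i in (Filter.hyperfilter ℕ : Filter ℕ), ∀ y ∈ B, ∀ x ∈ B,
      ∀ᶠ j in (Filter.hyperfilter ℕ : Filter ℕ), g i x = g j y → x = y :=
    (Filter.eventually_all_finset B).2 h1
  filter_upwards [h2] with i hi
  have h3 : ∀ᶠ j in (Filter.hyperfilter ℕ : Filter ℕ), ∀ y ∈ B, ∀ x ∈ B, g i x = g j y → x = y :=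
    (Filter.eventually_all_finset B).2 fun y hy => (Filter.eventually_all_finset B).2 fun x hx =>
      hi y hy x hx
  filter_upwards [h3] with j hj
  exact fun x hx y hy => hj y hy x hx

end Run7.h520.LW
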