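import Pool.Agent.Run7.h520.LW.CONF1

/-! # Piece CONF, second part: the branch -/

set_option autoImplicit false
set_option linter.all false

namespace Run7.h520.LW
open Classical

noncomputable def cs {m : ℕ} (c : ℕ → Fin m → ℕ) (j : ℕ) : Finset ℕ :=
  rg (fun x : Fin j × Fin m => c x.1 x.2)

noncomputable def Pj (M : Str ℕ) (Ω : Set ℕ) {m : ℕ} (c : ℕ → Fin m → ℕ) (j : ℕ) : Finset ℕ :=
  clo M Ω (cs c j)

noncomputable def Uj (M : Str ℕ) (Ω : Set ℕ) {n m : ℕ} (u : Fin n → ℕ) (c : ℕ → Fin m → ℕ)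
    (j : ℕ) : Finset ℕ := clo M Ω (rg u ∪ Pj M Ω c j)

noncomputable def Aj (M : Str ℕ) (Ω : Set ℕ) {n m : ℕ} (u : Fin n → ℕ) (c : ℕ → Fin m → ℕ)
    (i : ℕ) : Finset ℕ := clo M Ω (rg u ∪ rg (c i))

noncomputable def QJ (M : Str ℕ) (Ω : Set ℕ) {n m : ℕ} (u : Fin n → ℕ) (c : ℕ → Fin m → ℕ)
    (j : ℕ) : Finset ℕ := (Uj M Ω u c j).filter fun x => ∃ l, x ∈ Pj M Ω c l

noncomputable def BJ (M : Str ℕ) (Ω : Set ℕ) {n m : ℕ} (u : Fin n → ℕ) (c : ℕ → Fin m → ℕ)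
    (j i : ℕ) : Finset ℕ := clo M Ω (rg (c i) ∪ QJ M Ω u c j)

noncomputable def del (M : Str ℕ) (Ω : Set ℕ) {n m : ℕ} (u : Fin n → ℕ) (c : ℕ → Fin m → ℕ)
    (j : ℕ) : ℝ := M.dl (Uj M Ω u c j) - M.dl (Pj M Ω c j)

/-- the standing assumptions -/
structure Br (M : Str ℕ) (Ω : Set ℕ) {n m : ℕ} (u : Fin n → ℕ) (c : ℕ → Fin m → ℕ) : Prop where
  rich : Rich M Ω
  kclo : S_CLO
  sim : S_SIM M Ω
  hu : ∀ i, u i ∈ Ω
  hc : ∀ j i, c j i ∈ Ω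

section

variable {M : Str ℕ} {Ω : Set ℕ} {n m : ℕ} {u : Fin n → ℕ} {c : ℕ → Fin m → ℕ}
  (h : Br M Ω u c)

theorem mem_cs {j : ℕ} {v : ℕ} : v ∈ cs c j ↔ ∃ i < j, ∃ k, c i k = v := by
  unfold cs
  rw [rg_eq]
  constructor
  · rintro ⟨⟨i, k⟩, rfl⟩
    exact ⟨i, i.2, k, rfl⟩
  · rintro ⟨i, hi, k, rfl⟩
    exact ⟨(⟨i, hi⟩, k), rfl⟩

theorem cs_mono {i j : ℕ} (hij : i ≤ j) : cs c i ⊆ cs c j := by
  intro v hv
  rw [mem_cs] at hv ⊢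
  obtain ⟨i', h1, h2⟩ := hv
  exact ⟨i', by omega, h2⟩

include h

theorem Br.csΩ (j : ℕ) : ↑(cs c j) ⊆ Ω := by
  intro v hv
  obtain ⟨i, _, k, rfl⟩ := mem_cs.1 (Finset.mem_coe.1 hv)
  exact h.hc i k

theorem Br.Pcl (j : ℕ) : M.Cl (Pj M Ω c j) Ω := clo_cl h.sim (h.csΩ j)
theorem Br.Psub (j : ℕ) : ↑(Pj M Ω c j) ⊆ Ω := (h.Pcl j).sub
theorem Br.Pmono {i j : ℕ} (hij : i ≤ j) : Pj M Ω c i ⊆ Pj M Ω c j :=
  clo_mono h.sim (cs_mono hij) (h.csΩ j)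
theorem Br.cP {i j : ℕ} (hij : i < j) : rg (c i) ⊆ Pj M Ω c j := by
  refine Finset.Subset.trans ?_ (sub_clo h.sim (h.csΩ j))
  intro v hv
  obtain ⟨k, rfl⟩ := (rg_eq _ _).1 hv
  exact mem_cs.2 ⟨i, hij, k, rfl⟩

theorem Br.uΩ : ↑(rg u) ⊆ Ω := rg_sub h.hu
theorem Br.cΩ (i : ℕ) : ↑(rg (c i)) ⊆ Ω := rg_sub (h.hc i)

theorem Br.Uin (j : ℕ) : ↑(rg u ∪ Pj M Ω c j) ⊆ Ω := coe_union_sub h.uΩ (h.Psub j)
theorem Br.Ucl (j : ℕ) : M.Cl (Uj M Ω u c j) Ω := clo_cl h.sim (h.Uin j)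
theorem Br.PU (j : ℕ) : Pj M Ω c j ⊆ Uj M Ω u c j :=
  Finset.subset_union_right.trans (sub_clo h.sim (h.Uin j))
theorem Br.uU (j : ℕ) : rg u ⊆ Uj M Ω u c j :=
  Finset.subset_union_left.trans (sub_clo h.sim (h.Uin j))
theorem Br.Umono {i j : ℕ} (hij : i ≤ j) : Uj M Ω u c i ⊆ Uj M Ω u c j :=
  clo_le h.sim (Finset.union_subset (h.uU j) ((h.Pmono hij).trans (h.PU j))) (h.Ucl j)

theorem Br.Ain (i : ℕ) : ↑(rg u ∪ rg (c i)) ⊆ Ω := coe_union_sub h.uΩ (h.cΩ i)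
theorem Br.Acl (i : ℕ) : M.Cl (Aj M Ω u c i) Ω := clo_cl h.sim (h.Ain i)
theorem Br.uA (i : ℕ) : rg u ⊆ Aj M Ω u c i :=
  Finset.subset_union_left.trans (sub_clo h.sim (h.Ain i))
theorem Br.cA (i : ℕ) : rg (c i) ⊆ Aj M Ω u c i :=
  Finset.subset_union_right.trans (sub_clo h.sim (h.Ain i))
theorem Br.AU {i j : ℕ} (hij : i < j) : Aj M Ω u c i ⊆ Uj M Ω u c j :=
  clo_le h.sim (Finset.union_subset (h.uU j) ((h.cP hij).trans (h.PU j))) (h.Ucl j)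

/-- the dimension drops -/
theorem Br.del_anti : Antitone (del M Ω u c) := by
  refine antitone_nat_of_succ_le fun j => ?_
  unfold del
  have h1 := dl_clo_union h.rich h.kclo h.sim (h.Ucl j) (h.Pcl (j + 1))
  have e : clo M Ω (Uj M Ω u c j ∪ Pj M Ω c (j + 1)) = Uj M Ω u c (j + 1) := by
    have hin : ↑(Uj M Ω u c j ∪ Pj M Ω c (j + 1)) ⊆ Ω := coe_union_sub (h.Ucl j).sub (h.Psub _)
    apply Finset.Subset.antisymm
    · exact clo_le h.sim (Finset.union_subset (h.Umono (by omega)) (h.PU _)) (h.Ucl _)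
    · exact clo_le h.sim (Finset.union_subset ((h.uU j).trans
        (Finset.subset_union_left.trans (sub_clo h.sim hin)))
        (Finset.subset_union_right.trans (sub_clo h.sim hin))) (clo_cl h.sim hin)
  rw [e] at h1
  have h2 : M.dl (Pj M Ω c j) ≤ M.dl (Uj M Ω u c j ∩ Pj M Ω c (j + 1)) :=
    (h.Pcl j).le (h.kclo.inter h.rich.amb (h.Ucl j) (h.Pcl (j + 1))).1
      (Finset.subset_inter (h.PU j) (h.Pmono (by omega)))
  linarith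

theorem Br.del_nonneg (j : ℕ) : 0 ≤ del M Ω u c j := by
  have := (h.Pcl j).le (h.Ucl j).1 (h.PU j)
  unfold del
  linarith

theorem Br.del_small {ε : ℝ} (hε : 0 < ε) :
    ∃ J0, ∀ J ≥ J0, ∀ i, del M Ω u c J < del M Ω u c i + ε := by
  have hbdd : BddBelow (Set.range (del M Ω u c)) := ⟨0, by
    rintro x ⟨j, rfl⟩
    exact h.del_nonneg j⟩
  obtain ⟨J0, hJ0⟩ : ∃ J0, del M Ω u c J0 < (⨅ j, del M Ω u c j) + ε :=
    exists_lt_of_ciInf_lt (by linarith)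
  refine ⟨J0, fun J hJ i => ?_⟩
  have h1 := h.del_anti hJ
  have h2 : (⨅ j, del M Ω u c j) ≤ del M Ω u c i := ciInf_le hbdd i
  linarith

/-! ### the sets `QJ` and `BJ` -/

theorem mem_QJ {J v : ℕ} : v ∈ QJ M Ω u c J ↔ v ∈ Uj M Ω u c J ∧ ∃ l, v ∈ Pj M Ω c l := by
  unfold QJ; rw [Finset.mem_filter]

theorem Br.fin_P (F : Finset ℕ) (hF : ∀ x ∈ F, ∃ l, x ∈ Pj M Ω c l) :
    ∃ l0, ∀ l ≥ l0, F ⊆ Pj M Ω c l := by
  induction F using Finset.induction_on with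
  | empty => exact ⟨0, fun _ _ => Finset.empty_subset _⟩
  | insert v F _ ih =>
    obtain ⟨l0, hl0⟩ := ih fun x hx => hF x (Finset.mem_insert_of_mem hx)
    obtain ⟨l1, hl1⟩ := hF v (Finset.mem_insert_self v F)
    refine ⟨max l0 l1, fun l hl => Finset.insert_subset ?_ (hl0 l (by omega))⟩
    exact h.Pmono (by omega) hl1

theorem Br.fin_U (F : Finset ℕ) (hF : ∀ x ∈ F, ∃ l, x ∈ Uj M Ω u c l) :
    ∃ l0, ∀ l ≥ l0, F ⊆ Uj M Ω u c l := by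
  induction F using Finset.induction_on with
  | empty => exact ⟨0, fun _ _ => Finset.empty_subset _⟩
  | insert v F _ ih =>
    obtain ⟨l0, hl0⟩ := ih fun x hx => hF x (Finset.mem_insert_of_mem hx)
    obtain ⟨l1, hl1⟩ := hF v (Finset.mem_insert_self v F)
    refine ⟨max l0 l1, fun l hl => Finset.insert_subset ?_ (hl0 l (by omega))⟩
    exact h.Umono (by omega) hl1

theorem Br.QJ_eq (J : ℕ) : ∃ l0, ∀ l ≥ l0, Uj M Ω u c J ∩ Pj M Ω c l = QJ M Ω u c J := by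
  obtain ⟨l0, hl0⟩ := h.fin_P (QJ M Ω u c J) fun x hx => ((mem_QJ h).1 hx).2
  refine ⟨l0, fun l hl => ?_⟩
  ext x
  rw [Finset.mem_inter, mem_QJ h]
  constructor
  · rintro ⟨h1, h2⟩
    exact ⟨h1, l, h2⟩
  · intro h1
    exact ⟨h1.1, hl0 l hl ((mem_QJ h).2 h1)⟩

theorem Br.QJ_cl (J : ℕ) : M.Cl (QJ M Ω u c J) Ω := by
  obtain ⟨l0, hl0⟩ := h.QJ_eq J
  rw [← hl0 l0 le_rfl]
  exact h.kclo.inter h.rich.amb (h.Ucl J) (h.Pcl l0)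

theorem Br.QJ_mono {J J' : ℕ} (hJ : J ≤ J') : QJ M Ω u c J ⊆ QJ M Ω u c J' := by
  intro x hx
  rw [mem_QJ h] at hx ⊢
  exact ⟨h.Umono hJ hx.1, hx.2⟩

theorem Br.Bin (J i : ℕ) : ↑(rg (c i) ∪ QJ M Ω u c J) ⊆ Ω := coe_union_sub (h.cΩ i) (h.QJ_cl J).sub
theorem Br.Bcl (J i : ℕ) : M.Cl (BJ M Ω u c J i) Ω := clo_cl h.sim (h.Bin J i)
theorem Br.QB (J i : ℕ) : QJ M Ω u c J ⊆ BJ M Ω u c J i :=
  Finset.subset_union_right.trans (sub_clo h.sim (h.Bin J i))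
theorem Br.cB (J i : ℕ) : rg (c i) ⊆ BJ M Ω u c J i :=
  Finset.subset_union_left.trans (sub_clo h.sim (h.Bin J i))
theorem Br.BP {J i : ℕ} (hi : QJ M Ω u c J ⊆ Pj M Ω c (i + 1)) :
    BJ M Ω u c J i ⊆ Pj M Ω c (i + 1) :=
  clo_le h.sim (Finset.union_subset (h.cP (Nat.lt_succ_self i)) hi) (h.Pcl _)

theorem Br.UB {J i : ℕ} (hi : QJ M Ω u c J ⊆ Pj M Ω c (i + 1)) :
    Uj M Ω u c J ∩ BJ M Ω u c J i = QJ M Ω u c J := by
  ext x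
  rw [Finset.mem_inter]
  constructor
  · rintro ⟨h1, h2⟩
    exact (mem_QJ h).2 ⟨h1, _, h.BP hi h2⟩
  · intro h1
    exact ⟨((mem_QJ h).1 h1).1, h.QB J i h1⟩

/-- the drop -/
theorem Br.drop {J i : ℕ} (hJi : J ≤ i) (hi : QJ M Ω u c J ⊆ Pj M Ω c (i + 1)) :
    M.dl (Uj M Ω u c J) + M.dl (BJ M Ω u c J i) + del M Ω u c (i + 1) ≤
      M.dl (Uj M Ω u c J ∩ BJ M Ω u c J i) +
        M.dl (clo M Ω (Uj M Ω u c J ∪ BJ M Ω u c J i)) + del M Ω u c J := by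
  rw [h.UB hi]
  set C := clo M Ω (Uj M Ω u c J ∪ BJ M Ω u c J i) with hC
  have hin : ↑(Uj M Ω u c J ∪ BJ M Ω u c J i) ⊆ Ω := coe_union_sub (h.Ucl J).sub (h.Bcl J i).sub
  have hCc : M.Cl C Ω := clo_cl h.sim hin
  have hCs := sub_clo h.sim hin
  have h1 := dl_clo_union h.rich h.kclo h.sim hCc (h.Pcl (i + 1))
  have hin2 : ↑(C ∪ Pj M Ω c (i + 1)) ⊆ Ω := coe_union_sub hCc.sub (h.Psub _)
  have hCU : C ⊆ Uj M Ω u c (i + 1) :=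
    clo_le h.sim (Finset.union_subset (h.Umono (by omega)) ((h.BP hi).trans (h.PU _))) (h.Ucl _)
  have e : clo M Ω (C ∪ Pj M Ω c (i + 1)) = Uj M Ω u c (i + 1) := by
    apply Finset.Subset.antisymm
    · exact clo_le h.sim (Finset.union_subset hCU (h.PU _)) (h.Ucl _)
    · refine clo_le h.sim (Finset.union_subset ?_
        (Finset.subset_union_right.trans (sub_clo h.sim hin2))) (clo_cl h.sim hin2)
      exact (h.uU J).trans ((Finset.subset_union_left.trans hCs).trans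
        (Finset.subset_union_left.trans (sub_clo h.sim hin2)))
  rw [e] at h1
  have h2 : M.dl (BJ M Ω u c J i) ≤ M.dl (C ∩ Pj M Ω c (i + 1)) :=
    (h.Bcl J i).le (h.kclo.inter h.rich.amb hCc (h.Pcl (i + 1))).1
      (Finset.subset_inter (Finset.subset_union_right.trans hCs) (h.BP hi))
  have h3 : M.dl (Pj M Ω c J) ≤ M.dl (QJ M Ω u c J) :=
    (h.Pcl J).le (h.QJ_cl J).1 (fun x hx => (mem_QJ h).2 ⟨h.PU J hx, J, hx⟩)
  unfold del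
  linarith

/-- the decomposition -/
theorem Br.dec (hd : S_DEC) (b0 n0 : ℕ) (hb : ∀ i, (Aj M Ω u c i).card ≤ b0) (hn0 : b0 < g n0) :
    ∃ J0, ∀ J ≥ J0, ∀ i ≥ J, QJ M Ω u c J ⊆ Pj M Ω c (i + 1) →
      Aj M Ω u c i ⊆ Uj M Ω u c J ∪ BJ M Ω u c J i ∧
      M.nic (Aj M Ω u c i ∩ Uj M Ω u c J) (Aj M Ω u c i ∩ BJ M Ω u c J i) = ∅ ∧
      ∀ p ∈ Uj M Ω u c J, p ∉ BJ M Ω u c J i → ∀ y ∈ BJ M Ω u c J i, y ∉ Uj M Ω u c J →
        M.R p y → ∃ l ∈ lin (QJ M Ω u c J), l.1 = n0 ∧ M.On p l ∧ M.On y l := by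
  obtain ⟨J0, hJ0⟩ := h.del_small (ε := q (n0 + 1) / 8) (by have := q_pos (n0 + 1); linarith)
  refine ⟨J0, fun J hJ i hi hQ => ?_⟩
  have hin : ↑(Uj M Ω u c J ∪ BJ M Ω u c J i) ⊆ Ω := coe_union_sub (h.Ucl J).sub (h.Bcl J i).sub
  have h1 := h.drop hi hQ
  have h2 := hJ0 J hJ (i + 1)
  have h3 : M.IsC ((Aj M Ω u c i ∩ Uj M Ω u c J) ∪ (Aj M Ω u c i ∩ BJ M Ω u c J i))
      (Aj M Ω u c i) Ω := by
    refine ⟨h.Acl i, Finset.union_subset Finset.inter_subset_left Finset.inter_subset_left, ?_⟩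
    intro C' hC' hs
    refine clo_le h.sim (Finset.union_subset ?_ ?_) hC'
    · exact (Finset.subset_inter (h.uA i) (h.uU J)).trans (Finset.subset_union_left.trans hs)
    · exact (Finset.subset_inter (h.cA i) (h.cB J i)).trans (Finset.subset_union_right.trans hs)
  have h4 : Aj M Ω u c i ⊆ clo M Ω (Uj M Ω u c J ∪ BJ M Ω u c J i) := by
    refine clo_le h.sim (Finset.union_subset ?_ ?_) (clo_cl h.sim hin)
    · exact (h.uU J).trans (Finset.subset_union_left.trans (sub_clo h.sim hin))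
    · exact (h.cB J i).trans (Finset.subset_union_right.trans (sub_clo h.sim hin))
  have h5 := hd (M := M) (Ω := Ω) (U := Uj M Ω u c J) (B := BJ M Ω u c J i)
    (C := clo M Ω (Uj M Ω u c J ∪ BJ M Ω u c J i)) (A := Aj M Ω u c i) n0 h.rich.amb (h.Ucl J)
    (h.Bcl J i) (h.sim.isC hin) (by linarith) h3 h4 (lt_of_le_of_lt (hb i) hn0)
  refine ⟨h5.1, h5.2.1, ?_⟩
  have h6 := h5.2.2
  rw [h.UB hQ] at h6
  exact h6

end

end Run7.h520.LW
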