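import Pool.Agent.Run7.h520.LW.CONF2

/-! # Piece CONF, third part: the limit argument -/

set_option autoImplicit false
set_option linter.all false

namespace Run7.h520.LW
open Classical

/-- the ultrafilter -/
noncomputable abbrev hyf : Filter ℕ := (Filter.hyperfilter ℕ : Filter ℕ)

section

variable {M : Str ℕ} {Ω : Set ℕ} {n m : ℕ} {u : Fin n → ℕ} {c : ℕ → Fin m → ℕ}
  (h : Br M Ω u c)

include h

/-- the root -/
theorem Br.root (b0 : ℕ) (hb : ∀ i, (Aj M Ω u c i).card ≤ b0) : ∃ Us : Finset ℕ,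
    (∀ F : Finset ℕ, ∀ᶠ i in hyf, Aj M Ω u c i ∩ F = Us ∩ F) ∧
    (∃ J1, ∀ J ≥ J1, Us ⊆ Uj M Ω u c J) ∧ ↑Us ⊆ Ω := by
  have hfin : {x | ∀ᶠ i in hyf, x ∈ Aj M Ω u c i}.Finite := by
    by_contra hinf
    obtain ⟨F, hF1, hF2⟩ := Set.Infinite.exists_subset_card_eq hinf (b0 + 1)
    have h1 : ∀ᶠ i in hyf, ∀ x ∈ F, x ∈ Aj M Ω u c i :=
      (Filter.eventually_all_finset F).2 fun x hx => hF1 (Finset.mem_coe.2 hx)
    obtain ⟨i, hi⟩ := h1.exists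
    have h2 := Finset.card_le_card (show F ⊆ Aj M Ω u c i from hi)
    have := hb i
    omega
  have hmem : ∀ x, x ∈ hfin.toFinset ↔ ∀ᶠ i in hyf, x ∈ Aj M Ω u c i := fun x => by
    rw [Set.Finite.mem_toFinset]
    exact Iff.rfl
  refine ⟨hfin.toFinset, ?_, ?_, ?_⟩
  · intro F
    have h1 : ∀ᶠ i in hyf, ∀ x ∈ F, (x ∈ Aj M Ω u c i ↔ x ∈ hfin.toFinset) := by
      refine (Filter.eventually_all_finset F).2 fun x _ => ?_
      by_cases hx : x ∈ hfin.toFinset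
      · filter_upwards [(hmem x).1 hx] with i hi
        exact ⟨fun _ => hx, fun _ => hi⟩
      · have h2 : ¬ ∀ᶠ i in hyf, x ∈ Aj M Ω u c i := fun h => hx ((hmem x).2 h)
        rw [← Ultrafilter.eventually_not] at h2
        filter_upwards [h2] with i hi
        exact ⟨fun h => absurd h hi, fun h => absurd h hx⟩
    filter_upwards [h1] with i hi
    ext x
    rw [Finset.mem_inter, Finset.mem_inter]
    constructor
    · rintro ⟨h2, h3⟩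
      exact ⟨(hi x h3).1 h2, h3⟩
    · rintro ⟨h2, h3⟩
      exact ⟨(hi x h3).2 h2, h3⟩
  · apply h.fin_U
    intro x hx
    obtain ⟨i, hi⟩ := ((hmem x).1 hx).exists
    exact ⟨i + 1, h.AU (Nat.lt_succ_self i) hi⟩
  · intro x hx
    obtain ⟨i, hi⟩ := ((hmem x).1 (Finset.mem_coe.1 hx)).exists
    exact (h.Acl i).sub (Finset.mem_coe.2 hi)

/-- uniqueness of the line of each level -/
theorem Br.uniq {p : ℕ} (hp : ∀ l, p ∉ Pj M Ω c l) (hpΩ : p ∈ Ω) {l l' : ℕ × List ℕ}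
    (h1 : ∀ x ∈ l.2, ∃ j, x ∈ Pj M Ω c j) (h2 : ∀ x ∈ l'.2, ∃ j, x ∈ Pj M Ω c j)
    (hl : l.1 = l'.1) (ho : M.On p l) (ho' : M.On p l') : l = l' := by
  obtain ⟨j1, hj1⟩ := h.fin_P l.2.toFinset fun x hx => h1 x (List.mem_toFinset.1 hx)
  obtain ⟨j2, hj2⟩ := h.fin_P l'.2.toFinset fun x hx => h2 x (List.mem_toFinset.1 hx)
  have h3 := (h.Pcl (max j1 j2)).1.g2 p hpΩ (hp _) l'.1
  refine Str.nl_unique h3 (ho.isLn fun x hx => ?_) hl ho (ho'.isLn fun x hx => ?_) rfl ho'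
  · exact hj1 _ (le_max_left _ _) (List.mem_toFinset.2 hx)
  · exact hj2 _ (le_max_right _ _) (List.mem_toFinset.2 hx)

theorem Br.lines (hd : S_DEC) (b0 : ℕ) (hb : ∀ i, (Aj M Ω u c i).card ≤ b0) {Us : Finset ℕ}
    (hUs : ∀ F : Finset ℕ, ∀ᶠ i in hyf, Aj M Ω u c i ∩ F = Us ∩ F) {J1 : ℕ}
    (hJ1 : ∀ J ≥ J1, Us ⊆ Uj M Ω u c J) (n0 : ℕ) (hn0 : b0 < g n0) :
    ∃ J2, ∀ J ≥ J2, ∀ᶠ i in hyf, ∀ p ∈ Us, (∀ l, p ∉ Pj M Ω c l) → ∀ y ∈ Aj M Ω u c i, y ∉ Us →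
      M.R p y → ∃ l ∈ lin (QJ M Ω u c J), l.1 = n0 ∧ M.On p l ∧ M.On y l := by
  obtain ⟨J0, hJ0⟩ := h.dec hd b0 n0 hb hn0
  refine ⟨max J0 J1, fun J hJ => ?_⟩
  obtain ⟨l0, hl0⟩ := h.QJ_eq J
  filter_upwards [ev_ge J, ev_ge l0, hUs (Uj M Ω u c J)] with i hi1 hi2 hi3 p hp hpP y hy hyU hR
  have hQ : QJ M Ω u c J ⊆ Pj M Ω c (i + 1) := by
    rw [← hl0 (i + 1) (by omega)]
    exact Finset.inter_subset_right
  have hUU := hJ1 J (by omega)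
  rw [Finset.inter_eq_left.2 hUU] at hi3
  obtain ⟨h1, h2, h3⟩ := hJ0 J (by omega) i hi1 hQ
  have hyU' : y ∉ Uj M Ω u c J := fun hc => hyU (hi3 ▸ Finset.mem_inter.2 ⟨hy, hc⟩)
  have hyB : y ∈ BJ M Ω u c J i := by
    rcases Finset.mem_union.1 (h1 hy) with h4 | h4
    · exact absurd h4 hyU'
    · exact h4
  exact h3 p (hUU hp) (fun hc => hpP _ (h.BP hQ hc)) y hyB hyU' hR

theorem Br.limit (hd : S_DEC) (b0 h0 : ℕ) (hb : ∀ i, (Aj M Ω u c i).card ≤ b0) :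
    ∃ (J l I : ℕ) (lp : ℕ → ℕ × List ℕ), J ≤ l ∧ l ≤ I ∧
      Uj M Ω u c J ∩ Pj M Ω c l = QJ M Ω u c J ∧
      Aj M Ω u c I ∩ Pj M Ω c l ⊆ Uj M Ω u c J ∧
      Aj M Ω u c I ⊆ Uj M Ω u c J ∪ BJ M Ω u c J I ∧
      M.nic (Aj M Ω u c I ∩ Uj M Ω u c J) (Aj M Ω u c I ∩ BJ M Ω u c J I) = ∅ ∧
      ∀ p ∈ Aj M Ω u c I ∩ Uj M Ω u c J, p ∉ BJ M Ω u c J I →
        ∀ y ∈ Aj M Ω u c I ∩ BJ M Ω u c J I, y ∉ Uj M Ω u c J → M.R p y →
        h0 < (lp p).1 ∧ M.On p (lp p) ∧ M.On y (lp p) ∧ (∀ x ∈ (lp p).2, x ∈ Pj M Ω c l) ∧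
          (∃ x ∈ (lp p).2, x ∉ Uj M Ω u c J) ∧
          ∀ i < (lp p).1, ∀ x ∈ (pre i (lp p)).2, x ∈ QJ M Ω u c J := by
  obtain ⟨Us, hUs, ⟨J1, hJ1⟩, hUsΩ⟩ := h.root b0 hb
  set n0 := max b0 h0 + 1 with hn0
  have hg0 : b0 < g n0 := by have := g_lt n0; omega
  obtain ⟨J0, hJ0⟩ := h.dec hd b0 n0 hb hg0
  obtain ⟨J2, hJ2⟩ := h.lines hd b0 hb hUs hJ1 n0 hg0
  set J := max J0 (max J1 J2) with hJ
  have hJU := hJ1 J (by omega)
  -- active points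
  let act : ℕ → Prop := fun p => ∀ᶠ i in hyf, ∃ y ∈ Aj M Ω u c i, y ∉ Us ∧ M.R p y
  have hline : ∀ p ∈ Us, (∀ l, p ∉ Pj M Ω c l) → act p →
      ∃ l ∈ lin (QJ M Ω u c J), l.1 = n0 ∧ M.On p l := by
    intro p hp hpP hact
    obtain ⟨i, h1, y, hy1, hy2, hy3⟩ := ((hJ2 J (by omega)).and hact).exists
    obtain ⟨l, hl1, hl2, hl3, _⟩ := h1 p hp hpP y hy1 hy2 hy3
    exact ⟨l, hl1, hl2, hl3⟩
  -- the first level which is missing
  let la : ℕ → ℕ := fun p => sInf {i | ¬ ∃ l ∈ lin (QJ M Ω u c J), l.1 = i ∧ M.On p l}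
  have hla1 : ∀ p, ¬ ∃ l ∈ lin (QJ M Ω u c J), l.1 = la p ∧ M.On p l := by
    intro p
    refine Nat.sInf_mem (s := {i | ¬ ∃ l ∈ lin (QJ M Ω u c J), l.1 = i ∧ M.On p l})
      ⟨(QJ M Ω u c J).card, ?_⟩
    rintro ⟨l, hl1, hl2, _⟩
    have := lin_level hl1 (g_lt _)
    omega
  have hla2 : ∀ p, ∀ i < la p, ∃ l ∈ lin (QJ M Ω u c J), l.1 = i ∧ M.On p l := by
    intro p i hi
    by_contra hcon
    exact Nat.notMem_of_lt_sInf hi hcon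
  have hla3 : ∀ p ∈ Us, (∀ l, p ∉ Pj M Ω c l) → act p → n0 < la p := by
    intro p hp hpP hact
    by_contra hcon
    obtain ⟨l, hl1, hl2, hl3⟩ := hline p hp hpP hact
    refine hla1 p ⟨pre (la p) l, pre_lin hl1 (by omega), rfl, hl3.pre (by omega)⟩
  set n1 := max n0 (Us.sup la) with hn1
  have hlan1 : ∀ p ∈ Us, la p ≤ n1 := fun p hp => (Finset.le_sup hp).trans (le_max_right _ _)
  have hg1 : b0 < g n1 := by have := g_lt n1; omega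
  obtain ⟨J3, hJ3⟩ := h.lines hd b0 hb hUs hJ1 n1 hg1
  set J' := max J J3 with hJ'
  have hQP : ∀ K, ∀ x ∈ QJ M Ω u c K, ∃ l, x ∈ Pj M Ω c l := fun K x hx => ((mem_QJ h).1 hx).2
  have hline' : ∀ p, ∃ l : ℕ × List ℕ, p ∈ Us → (∀ l, p ∉ Pj M Ω c l) → act p →
      l ∈ lin (QJ M Ω u c J') ∧ l.1 = n1 ∧ M.On p l := by
    intro p
    by_cases hc : p ∈ Us ∧ (∀ l, p ∉ Pj M Ω c l) ∧ act p
    · obtain ⟨hp, hpP, hact⟩ := hc
      obtain ⟨i, h1, y, hy1, hy2, hy3⟩ := ((hJ3 J' (by omega)).and hact).exists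
      obtain ⟨l, hl1, hl2, hl3, _⟩ := h1 p hp hpP y hy1 hy2 hy3
      exact ⟨l, fun _ _ _ => ⟨hl1, hl2, hl3⟩⟩
    · exact ⟨(0, []), fun h1 h2 h3 => absurd ⟨h1, h2, h3⟩ hc⟩
  choose lq hlq using hline'
  obtain ⟨l1, hl1⟩ := h.fin_P (QJ M Ω u c J') (hQP J')
  obtain ⟨l2, hl2⟩ := h.QJ_eq J
  set l := max J (max l1 l2) with hl
  -- the choice of I
  have hin : ∀ᶠ i in hyf, ∀ p ∈ Us, ¬ act p → ¬ ∃ y ∈ Aj M Ω u c i, y ∉ Us ∧ M.R p y := by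
    refine (Filter.eventually_all_finset Us).2 fun p _ => ?_
    by_cases hact : act p
    · exact Filter.Eventually.of_forall fun i h1 => absurd hact h1
    · have h1 := hact
      rw [← Ultrafilter.eventually_not] at h1
      filter_upwards [h1] with i hi _
      exact hi
  obtain ⟨I, hI1, hI2, hI3, hI4, hI5⟩ := ((ev_ge l).and ((hUs (Uj M Ω u c J)).and
    ((hUs (Pj M Ω c l)).and ((hJ3 J' (by omega)).and hin)))).exists
  rw [Finset.inter_eq_left.2 hJU] at hI2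
  have hQl : QJ M Ω u c J ⊆ Pj M Ω c l := by
    rw [← hl2 l (by omega)]
    exact Finset.inter_subset_right
  have hQI : QJ M Ω u c J ⊆ Pj M Ω c (I + 1) := hQl.trans (h.Pmono (by omega))
  obtain ⟨hD1, hD2, hD3⟩ := hJ0 J (by omega) I (by omega) hQI
  refine ⟨J, l, I, fun p => pre (la p) (lq p), by omega, hI1, hl2 l (by omega), ?_, hD1, hD2, ?_⟩
  · rw [hI3]
    exact Finset.inter_subset_left.trans hJU
  · intro p hp hpB y hy hyU hR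
    rw [hI2] at hp
    have hy1 := (Finset.mem_inter.1 hy).1
    have hyUs : y ∉ Us := fun hc => hyU (hJU hc)
    have hpP : ∀ l, p ∉ Pj M Ω c l := fun l hc => hpB (h.QB J I ((mem_QJ h).2 ⟨hJU hp, l, hc⟩))
    have hpΩ : p ∈ Ω := hUsΩ (Finset.mem_coe.2 hp)
    have hact : act p := by
      by_contra hcon
      exact hI5 p hp hcon ⟨y, hy1, hyUs, hR⟩
    obtain ⟨hq1, hq2, hq3⟩ := hlq p hp hpP hact
    have hle : la p ≤ (lq p).1 := by rw [hq2]; exact hlan1 p hp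
    obtain ⟨l', hl'1, hl'2, hl'3, hl'4⟩ := hI4 p hp hpP y hy1 hyUs hR
    have hqP : ∀ x ∈ (lq p).2, ∃ j, x ∈ Pj M Ω c j := fun x hx => hQP J' x ((mem_lin.1 hq1).2.2 x hx)
    have e : l' = lq p := h.uniq hpP hpΩ (fun x hx => hQP J' x ((mem_lin.1 hl'1).2.2 x hx)) hqP
      (by rw [hl'2, hq2]) hl'3 hq3
    subst e
    have hon : M.On p (pre (la p) (lq p)) := hl'3.pre hle
    have hPP : ∀ x ∈ (pre (la p) (lq p)).2, ∃ j, x ∈ Pj M Ω c j :=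
      fun x hx => hqP x (List.mem_of_mem_take hx)
    refine ⟨?_, hon, hl'4.pre hle, ?_, ?_, ?_⟩
    · show h0 < la p
      have := hla3 p hp hpP hact
      omega
    · intro x hx
      exact hl1 l (by omega) ((mem_lin.1 hq1).2.2 x (List.mem_of_mem_take hx))
    · by_contra hcon
      push Not at hcon
      refine hla1 p ⟨pre (la p) (lq p), mem_lin.2 ⟨hon.2.1, hon.2.2.1, fun x hx => ?_⟩, rfl, hon⟩
      exact (mem_QJ h).2 ⟨hcon x hx, hPP x hx⟩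
    · intro i hi x hx
      have hi' : i < la p := hi
      obtain ⟨k, hk1, hk2, hk3⟩ := hla2 p i hi'
      have hon2 : M.On p (pre i (pre (la p) (lq p))) := hon.pre (le_of_lt hi)
      have e2 : k = pre i (pre (la p) (lq p)) := by
        refine h.uniq hpP hpΩ (fun x hx => hQP J x ((mem_lin.1 hk1).2.2 x hx))
          (fun x hx => hPP x (List.mem_of_mem_take hx)) ?_ hk3 hon2
        rw [hk2]
        rfl
      rw [← e2] at hx
      exact (mem_lin.1 hk1).2.2 x hx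

end

end Run7.h520.LW
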