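import Pool.Agent.Run7.h520.LW.CONF3

/-! # Piece CONF, fourth part: the siblings, and the branch theorem -/

set_option autoImplicit false
set_option linter.all false

namespace Run7.h520.LW
open Classical

/-- a level after which the new edges are cheap -/
theorem exists_level (b0 K : ℕ) : ∃ h0, (b0 : ℝ) < f (g h0) ∧
    ∀ n, h0 ≤ n → 16 * ((K : ℝ) * b0) * w n ≤ a n := by
  obtain ⟨x, hx⟩ := f_unb (b0 + 1)
  refine ⟨max x (K * b0 + 1), ?_, ?_⟩
  · have h1 : x ≤ g (max x (K * b0 + 1)) := by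
      have := g_lt (max x (K * b0 + 1))
      omega
    have h2 := f_mono h1
    linarith
  · intro n hn
    have h1 : K * b0 ≤ g n := by
      have := g_lt n
      omega
    have h2 : ((K : ℝ) * b0) ≤ g n := by exact_mod_cast h1
    have h3 := w_le n
    have h4 := q_lt n
    have h5 := q_pos n
    have h6 := q_pos (n + 1)
    have h7 := g_ge' n
    have h8 := q_le_one n
    have h9 := a_ge n
    have h10 := w_pos n
    have h11 : q n ^ 4 ≤ q n := by
      have : q n ^ 4 ≤ q n ^ 1 := pow_le_pow_of_le_one h5.le h8 (by norm_num)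
      simpa using this
    have h12 : (g n : ℝ) ≤ (g n : ℝ) ^ 4 := by
      have h9 : (g n : ℝ) ^ 1 ≤ (g n : ℝ) ^ 4 := pow_le_pow_right₀ (by linarith) (by norm_num)
      simpa using h9
    have h13 : 16 * ((K : ℝ) * b0) * w n ≤ 16 * g n * (2 * q (n + 1)) := by
      have h14 : 16 * ((K : ℝ) * b0) * w n ≤ 16 * g n * w n :=
        mul_le_mul_of_nonneg_right (by linarith) h10.le
      have h15 : 16 * (g n : ℝ) * w n ≤ 16 * g n * (2 * q (n + 1)) :=
        mul_le_mul_of_nonneg_left h3 (by linarith)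
      linarith
    have h16 : (g n : ℝ) * q (n + 1) ≤ (g n : ℝ) ^ 4 * q (n + 1) :=
      mul_le_mul_of_nonneg_right h12 h6.le
    nlinarith

theorem CONF (hc : S_CLO) (hsim : ∀ (M : Str ℕ) (Ω : Set ℕ), Rich M Ω → S_SIM M Ω) (hd : S_DEC)
    (ha : S_AMAL) : S_BT := by
  intro M Ω hr n m k u c c' hu hcΩ hcΩ' hs
  have hS := hsim M Ω hr
  have h : Br M Ω u c := ⟨hr, hc, hS, hu, hcΩ⟩
  rcases Nat.eq_zero_or_pos k with rfl | hk
  · exact ⟨0, ∅, u, rfl, hu, by simp⟩
  obtain ⟨b0, hb0⟩ := hc.card (n + m)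
  have hb : ∀ i, (Aj M Ω u c i).card ≤ b0 := by
    intro i
    refine hb0 hr.amb hr.k ?_ (hS.isC (h.Ain i))
    refine (Finset.card_union_le _ _).trans ?_
    have h1 := card_rg u
    have h2 := card_rg (c i)
    rw [Nat.card_eq_fintype_card, Fintype.card_fin] at h1 h2
    omega
  obtain ⟨h0, hh1, hh2⟩ := exists_level b0 k
  obtain ⟨J, l, I, lp, hJl, hlI, hUP, hAP, hAUB, hnic, hlp⟩ := h.limit hd b0 h0 hb
  set U := Uj M Ω u c J with hU
  set Q := QJ M Ω u c J with hQ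
  set B := BJ M Ω u c J I with hB
  set A := Aj M Ω u c I with hA
  set P := Pj M Ω c l with hP
  have hQP : Q ⊆ P := by
    rw [← hUP]
    exact Finset.inter_subset_right
  -- the isomorphisms
  set s0 : (Fin I × Fin m) ⊕ Fin m → ℕ :=
    Sum.elim (fun x : Fin I × Fin m => c x.1 x.2) (c I) with hs0
  set W := clo M Ω (rg s0) with hW
  have hs0Ω : ∀ i, s0 i ∈ Ω := by
    rintro (x | x)
    · exact hcΩ _ _
    · exact hcΩ _ _
  have hWin : ↑(rg s0) ⊆ Ω := rg_sub hs0Ω
  have hWcl : M.Cl W Ω := clo_cl hS hWin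
  have hσ : ∀ t, ∃ σ : ℕ → ℕ, Emb M M W σ ∧ M.Cl (W.image σ) Ω ∧
      (∀ i < I, ∀ k, σ (c i k) = c i k) ∧ ∀ k, σ (c I k) = c' I t k := by
    intro t
    obtain ⟨σ, h1, h2, h3⟩ := hS.cl (hS.symm (hs I t))
    refine ⟨σ, h1, ?_, ?_, ?_⟩
    · rw [h2]
      refine clo_cl hS (rg_sub ?_)
      rintro (x | x)
      · exact hcΩ _ _
      · exact hcΩ' _ _ _
    · intro i hi k
      exact h3 (Sum.inl (⟨i, hi⟩, k))
    · intro k
      exact h3 (Sum.inr k)
  choose σ hσ1 hσ2 hσ3 hσ4 using hσ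
  have hcsW : cs c l ⊆ rg s0 := by
    intro v hv
    obtain ⟨i, hi, k, rfl⟩ := mem_cs.1 hv
    exact mem_rg s0 (Sum.inl (⟨i, by omega⟩, k))
  have hPW : P ⊆ W := clo_mono hS hcsW hWin
  have hcW : rg (c I) ⊆ W := by
    refine Finset.Subset.trans ?_ (sub_clo hS hWin)
    intro v hv
    obtain ⟨k, rfl⟩ := (rg_eq _ _).1 hv
    exact mem_rg s0 (Sum.inr k)
  have hBW : B ⊆ W := clo_le hS (Finset.union_subset hcW (hQP.trans hPW)) hWcl
  -- the images of P
  have hσP : ∀ t, P.image (σ t) = P := by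
    intro t
    have h1 : P.image (σ t) = clo M Ω ((cs c l).image (σ t)) :=
      hS.clo_image hWcl (hσ1 t) (hσ2 t) (hcsW.trans (sub_clo hS hWin))
    have h2 : (cs c l).image (σ t) = cs c l := by
      ext v
      rw [Finset.mem_image]
      constructor
      · rintro ⟨x, hx, rfl⟩
        obtain ⟨i, hi, k, rfl⟩ := mem_cs.1 hx
        rw [hσ3 t i (by omega) k]
        exact hx
      · intro hv
        obtain ⟨i, hi, k, hk⟩ := mem_cs.1 hv
        refine ⟨v, hv, ?_⟩
        rw [← hk, hσ3 t i (by omega) k]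
    rw [h1, h2]
    rfl
  have hτ : ∀ x, ∃ y, x ∈ P → ∀ᶠ t in hyf, σ t x = y := by
    intro x
    by_cases hx : x ∈ P
    · obtain ⟨y, hy⟩ := ev_const P (fun t => σ t x) (Filter.Eventually.of_forall fun t => by
        rw [← hσP t]
        exact Finset.mem_image_of_mem _ hx)
      exact ⟨y, fun _ => hy⟩
    · exact ⟨0, fun h => absurd h hx⟩
  choose τ hτ using hτ
  have hτ2 : ∀ᶠ t in hyf, ∀ x ∈ P, σ t x = τ x := (Filter.eventually_all_finset P).2 hτ
  -- the indices
  obtain ⟨T, hT1, hT2, hT3⟩ := ev_pairs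
    (fun s t => (∀ x ∈ B, ∀ y ∈ B, σ s x = σ t y → x = y)) (fun s t h1 x hx y hy hxy =>
      (h1 y hy x hx hxy.symm).symm) (fun t => ∀ x ∈ P, σ t x = τ x) hτ2
    (ev_sep B σ fun t x hx y hy hxy => (hσ1 t).inj x (hBW hx) y (hBW hy) hxy) k
  have hTne : T.Nonempty := by rw [← Finset.card_pos]; omega
  have hcl_im : ∀ t, ∀ X ⊆ W, M.Cl X Ω → M.Cl (X.image (σ t)) Ω := fun t X hX hXc =>
    (hS.cl_image hWcl (hσ1 t) (hσ2 t) hX).2 hXc
  have hPcl : M.Cl P Ω := h.Pcl l
  have hBcl : M.Cl B Ω := h.Bcl J I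
  set D0 := P ∪ T.biUnion fun t => B.image (σ t) with hD0
  have hD0Ω : ↑D0 ⊆ Ω := by
    refine coe_union_sub hPcl.sub ?_
    intro v hv
    obtain ⟨t, ht, hv⟩ := Finset.mem_biUnion.1 (Finset.mem_coe.1 hv)
    exact (hcl_im t B hBW hBcl).sub (Finset.mem_coe.2 hv)
  set D := clo M Ω D0 with hD
  have hD0D : D0 ⊆ D := sub_clo hS hD0Ω
  have hUB : U ∩ B = Q := h.UB (hQP.trans (h.Pmono (by omega)))
  have cfg : Cfg M Ω b0 h0 T U Q B A P W D σ τ lp :=
    { rich := hr
      ne := hTne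
      cU := h.Ucl J
      cB := hBcl
      cA := h.Acl I
      cP := hPcl
      cW := hWcl
      cD := clo_cl hS hD0Ω
      BW := hBW
      PW := hPW
      UB := hUB
      UP := hUP
      AP := hAP
      AUB := hAUB
      noinc := hnic
      emb := fun t _ => hσ1 t
      img := fun t _ => hσ2 t
      σP := fun t ht => hT2 t ht
      τP := by
        obtain ⟨t, ht⟩ := hTne
        have h1 : P.image τ = P.image (σ t) := Finset.image_congr fun x hx => (hT2 t ht x hx).symm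
        rw [h1, hσP t]
      sep := fun s hs t ht hst x hx y hy hxy => hT3 s hs t ht hst x hx y hy hxy
      PD := Finset.subset_union_left.trans hD0D
      σD := fun t ht => (Finset.subset_biUnion_of_mem (fun t => B.image (σ t)) ht).trans
        (Finset.subset_union_right.trans hD0D)
      card := hb I
      hf := hh1
      hw := by
        rw [hT1]
        exact hh2
      lp_ := hlp }
  obtain ⟨ψ, hψ1, hψ2⟩ := ha cfg
  have huA : ∀ i, u i ∈ A := fun i => h.uA I (mem_rg u i)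
  have huU : ∀ i, u i ∈ U := fun i => h.uU J (mem_rg u i)
  have hcA : ∀ i, c I i ∈ A := fun i => h.cA I (mem_rg (c I) i)
  have hcB : ∀ i, c I i ∈ B := fun i => h.cB J I (mem_rg (c I) i)
  have hval : ∀ t ∈ T, ∀ i, (if u i ∈ B then σ t (u i) else ψ (u i)) = ψ (u i) := by
    intro t ht i
    by_cases hi : u i ∈ B
    · rw [if_pos hi]
      have h1 : u i ∈ Q := by rw [← hUB]; exact Finset.mem_inter.2 ⟨huU i, hi⟩
      rw [hψ1 _ h1, hT2 t ht _ (hQP h1)]
    · rw [if_neg hi]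
  refine ⟨I, T, fun i => ψ (u i), hT1, ?_, ?_⟩
  · intro i
    obtain ⟨t, ht⟩ := hTne
    have h1 := (hψ2 t ht).2.sub
    have h2 := hval t ht i
    show ψ (u i) ∈ Ω
    rw [← h2]
    exact h1 (Finset.mem_coe.2 (Finset.mem_image.2 ⟨u i, huA i, rfl⟩))
  · intro t ht
    refine hS.symm ⟨A, fun x => if x ∈ B then σ t x else ψ x, h.Acl I, (hψ2 t ht).1, (hψ2 t ht).2, ?_⟩
    rintro (i | i)
    · exact ⟨huA i, hval t ht i⟩
    · refine ⟨hcA i, ?_⟩
      show (if c I i ∈ B then σ t (c I i) else ψ (c I i)) = c' I t i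
      rw [if_pos (hcB i), hσ4]

end Run7.h520.LW
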