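import Pool.Agent.Run7.h520.LW.Base

/-!
# Basic facts
-/

set_option autoImplicit false
set_option linter.all false

namespace Run7.h520.LW
open Classical

/-! ### The parameters -/

theorem q_zero : q 0 = 1 := PP.q0
theorem q_pos (j : ℕ) : 0 < q j := PP.qpos j
theorem q_div (j : ℕ) : ∃ m : ℕ, q j = m * q (j + 1) := PP.qdiv j
theorem q_lt (j : ℕ) : q (j + 1) * (2 ^ 40 * (g j : ℝ) ^ 4) ≤ q j ^ 4 := PP.qlt j
theorem g_zero : 64 ≤ g 0 := PP.g0
theorem g_mono' (j : ℕ) : 8 * g j ≤ g (j + 1) := PP.gmono j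
theorem N_mul (j : ℕ) : (N j : ℝ) * q j = 4 * g j := PP.hN j
theorem K_mul (j : ℕ) : (K j : ℝ) * q j = 4 := PP.hK j
theorem w_eq (j : ℕ) : w j = q (j + 1) + w (j + 1) := PP.hw j
theorem w_pos (j : ℕ) : 0 < w j := PP.wpos j
theorem w_le (j : ℕ) : w j ≤ 2 * q (j + 1) := PP.wle j
theorem f_zero : f 0 = 0 := PP.f0
theorem f_mono : Monotone f := PP.fmono
theorem f_unb (c : ℝ) : ∃ n, c ≤ f n := PP.funb c
theorem f_step (j x y z : ℕ) (h1 : y ≤ z) (h2 : z ≤ x) (h3 : j = 0 ∨ g (j - 1) ≤ z) :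
    f (x + y) ≤ f x + q j / 16 := PP.fstep j x y z h1 h2 h3
theorem f_small (x : ℕ) : f x ≤ x / 8 := PP.fsmall x
theorem f_up (j x : ℕ) : f x ≤ g j / 8 + q (j + 1) * x / 8 := PP.fup j x

theorem g_ge (j : ℕ) : 64 ≤ g j := by
  induction j with
  | zero => exact g_zero
  | succ j ih => have := g_mono' j; omega

theorem g_pos (j : ℕ) : 0 < g j := by have := g_ge j; omega

theorem g_strictMono : StrictMono g := by
  refine strictMono_nat_of_lt_succ fun j => ?_
  have := g_mono' j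
  have := g_pos j
  omega

theorem g_ge' (j : ℕ) : (64 : ℝ) ≤ g j := by exact_mod_cast g_ge j

theorem q_le_one_and (j : ℕ) : q j ≤ 1 ∧ q (j + 1) * 2 ^ 40 ≤ q j := by
  have key : ∀ j, q j ≤ 1 → q (j + 1) * 2 ^ 40 ≤ q j := by
    intro j h
    have h1 := q_lt j
    have h2 := q_pos j
    have h3 := q_pos (j + 1)
    have h4 := g_ge' j
    have h5 : (1 : ℝ) ≤ (g j : ℝ) ^ 4 := by
      have : (1 : ℝ) ≤ g j := by linarith
      exact one_le_pow₀ this
    have h6 : q j ^ 4 ≤ q j := by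
      have : q j ^ 4 ≤ q j ^ 1 := pow_le_pow_of_le_one h2.le h (by norm_num)
      simpa using this
    nlinarith [mul_le_mul_of_nonneg_left h5 (by positivity : (0 : ℝ) ≤ q (j + 1) * 2 ^ 40)]
  have h0 : ∀ j, q j ≤ 1 := by
    intro j
    induction j with
    | zero => exact q_zero.le
    | succ j ih =>
      have := key j ih
      have := q_pos (j + 1)
      nlinarith
  exact ⟨h0 j, key j (h0 j)⟩

theorem q_le_one (j : ℕ) : q j ≤ 1 := (q_le_one_and j).1
theorem q_succ_le (j : ℕ) : q (j + 1) * 2 ^ 40 ≤ q j := (q_le_one_and j).2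

theorem q_anti : Antitone q := by
  refine antitone_nat_of_succ_le fun j => ?_
  have := q_succ_le j
  have := q_pos (j + 1)
  nlinarith

/-- `a j` is close to `q j` -/
theorem a_ge (j : ℕ) : q j * (1 - 1 / 2 ^ 38) ≤ a j := by
  unfold a
  have := q_succ_le j
  have := q_pos j
  nlinarith
theorem a_le (j : ℕ) : a j ≤ q j := by
  unfold a
  have := q_pos (j + 1)
  linarith
theorem a_pos (j : ℕ) : 0 < a j := by
  have := a_ge j
  have := q_pos j
  nlinarith

theorem w_le' (j : ℕ) : w j * 2 ^ 39 ≤ q j := by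
  have := w_le j
  have := q_succ_le j
  linarith

theorem w_anti : Antitone w := by
  refine antitone_nat_of_succ_le fun j => ?_
  have := w_eq j
  have := q_pos (j + 1)
  linarith

theorem wt_eq : wt = 1 - w 0 := rfl
theorem wt_le : wt ≤ 1 := by
  have := w_pos 0
  unfold wt; linarith
theorem wt_ge : 1 / 2 ≤ wt := by
  have := w_le' 0
  rw [q_zero] at this
  unfold wt; linarith

/-- the weight of a point of a line of level `j - 1` -/
noncomputable def r (j : ℕ) : ℝ := q j - w j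
theorem r_zero : r 0 = wt := by unfold r wt; rw [q_zero]
theorem r_succ (j : ℕ) : r (j + 1) = r j - a j := by
  unfold r a; rw [w_eq j]; ring
theorem r_eq (j : ℕ) : wt - ∑ i ∈ Finset.range j, a i = r j := by
  induction j with
  | zero => simp [r_zero]
  | succ j ih => rw [Finset.sum_range_succ, r_succ, ← ih]; ring
theorem r_ge (j : ℕ) : q j / 2 ≤ r j := by
  have := w_le' j
  have := q_pos j
  unfold r; nlinarith
theorem w_sum (j : ℕ) : w 0 - ∑ i ∈ Finset.range j, q (i + 1) = w j := by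
  induction j with
  | zero => simp
  | succ j ih => rw [Finset.sum_range_succ]; have := w_eq j; linarith

/-- a finite set of levels has total weight less than `w 0` -/
theorem w_levels (L : Finset ℕ) (j : ℕ) (hL : ∀ i ∈ L, i < j) :
    ∑ i ∈ L, q (i + 1) ≤ w 0 - w j := by
  have h1 : ∑ i ∈ L, q (i + 1) ≤ ∑ i ∈ Finset.range j, q (i + 1) :=
    Finset.sum_le_sum_of_subset_of_nonneg (fun i hi => Finset.mem_range.2 (hL i hi))
      fun i _ _ => (q_pos _).le
  have h2 := w_sum j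
  linarith

theorem w_levels' (L : Finset ℕ) : ∑ i ∈ L, q (i + 1) < w 0 := by
  have h1 := w_levels L (L.sup id + 1) fun i hi => Nat.lt_succ_of_le (Finset.le_sup (f := id) hi)
  have := w_pos (L.sup id + 1)
  linarith

theorem N_pos (j : ℕ) : 0 < N j := by
  have h1 := N_mul j
  have h2 := g_ge' j
  by_contra h
  have : N j = 0 := by omega
  rw [this, Nat.cast_zero, zero_mul] at h1
  linarith

/-- the flags are cheap -/
theorem N_small (j : ℕ) : N j * q (j + 1) * 2 ^ 30 ≤ q j := by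
  have h1 := N_mul j
  have h2 := q_lt j
  have h3 := q_pos j
  have h4 := q_pos (j + 1)
  have h5 := g_ge' j
  have h6 := q_le_one j
  -- N q' 2^30 * q = 4 g q' 2^30 ≤ q^4
  have h7 : (N j * q (j + 1) * 2 ^ 30) * q j ≤ q j * q j := by
    have e : (N j * q (j + 1) * 2 ^ 30) * q j = (4 * g j) * q (j + 1) * 2 ^ 30 := by
      rw [← h1]; ring
    rw [e]
    have h8 : (g j : ℝ) ≤ (g j : ℝ) ^ 4 := by
      have h9 : (g j : ℝ) ^ 1 ≤ (g j : ℝ) ^ 4 := pow_le_pow_right₀ (by linarith) (by norm_num)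
      simpa using h9
    have h10 : q j ^ 4 ≤ q j * q j := by
      have : q j ^ 4 ≤ q j ^ 2 := pow_le_pow_of_le_one h3.le h6 (by norm_num)
      nlinarith
    have h11 : (g j : ℝ) * q (j + 1) ≤ (g j : ℝ) ^ 4 * q (j + 1) :=
      mul_le_mul_of_nonneg_right h8 h4.le
    nlinarith
  exact le_of_mul_le_mul_right h7 h3

theorem KN_small (j : ℕ) : K j * N j * g j * q (j + 1) * 2 ^ 30 ≤ q j := by
  have h1 := N_mul j
  have h1' := K_mul j
  have h2 := q_lt j
  have h3 := q_pos j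
  have h4 := q_pos (j + 1)
  have h5 := g_ge' j
  have h6 := q_le_one j
  have h7 : (K j * N j * g j * q (j + 1) * 2 ^ 30) * (q j * q j) ≤ q j * (q j * q j) := by
    have e : (K j * N j * g j * q (j + 1) * 2 ^ 30) * (q j * q j) =
        ((K j : ℝ) * q j) * ((N j : ℝ) * q j) * g j * q (j + 1) * 2 ^ 30 := by ring
    rw [e, h1, h1']
    have h8 : (g j : ℝ) ^ 2 ≤ (g j : ℝ) ^ 4 := pow_le_pow_right₀ (by linarith) (by norm_num)
    have h10 : q j ^ 4 ≤ q j * (q j * q j) := by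
      have : q j ^ 4 ≤ q j ^ 3 := pow_le_pow_of_le_one h3.le h6 (by norm_num)
      nlinarith
    have h11 : (g j : ℝ) ^ 2 * q (j + 1) ≤ (g j : ℝ) ^ 4 * q (j + 1) :=
      mul_le_mul_of_nonneg_right h8 h4.le
    nlinarith
  exact le_of_mul_le_mul_right h7 (by positivity)

/-! ### Lines -/

section

variable {V : Type} {G : Str V} {Z Y : Set V} {A B C S T X : Finset V} {j i : ℕ} {p v x y : V}
  {l : ℕ × List V}

theorem IsLn.mono (h : IsLn X l) (hX : X ⊆ A) : IsLn A l := ⟨h.1, h.2.1, fun x hx => hX (h.2.2 x hx)⟩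

theorem lin_mono (h : A ⊆ B) : lin A ⊆ lin B := fun l hl => mem_lin.2 ((mem_lin.1 hl).mono h)

theorem lin_inter [DecidableEq V] (A B : Finset V) : lin (A ∩ B) = lin A ∩ lin B := by
  ext l
  rw [Finset.mem_inter, mem_lin, mem_lin, mem_lin]
  unfold IsLn
  simp only [Finset.mem_inter]
  constructor
  · rintro ⟨h1, h2, h3⟩
    exact ⟨⟨h1, h2, fun x hx => (h3 x hx).1⟩, ⟨h1, h2, fun x hx => (h3 x hx).2⟩⟩
  · rintro ⟨⟨h1, h2, h3⟩, ⟨_, _, h6⟩⟩
    exact ⟨h1, h2, fun x hx => ⟨h3 x hx, h6 x hx⟩⟩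

theorem IsLn.card (h : IsLn X l) : g l.1 ≤ X.card := by
  have : l.2.toFinset ⊆ X := fun x hx => h.2.2 x (List.mem_toFinset.1 hx)
  have h3 := Finset.card_le_card this
  rw [List.toFinset_card_of_nodup h.2.1, h.1] at h3
  exact h3

/-- the initial segment of level `i` of the line `l` -/
noncomputable def pre (i : ℕ) (l : ℕ × List V) : ℕ × List V := (i, l.2.take (g i))

theorem take_length (h : l.2.length = g l.1) (hi : i ≤ l.1) : (l.2.take (g i)).length = g i := by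
  rw [List.length_take, h]
  exact min_eq_left (g_strictMono.monotone hi)

theorem Str.On.isLn (h : G.On p l) (hl : ∀ x ∈ l.2, x ∈ X) : l ∈ lin X :=
  mem_lin.2 ⟨h.2.1, h.2.2.1, hl⟩

theorem Str.On.pre (h : G.On p l) (hi : i ≤ l.1) : G.On p (pre i l) := by
  refine ⟨h.1, take_length h.2.1 hi, h.2.2.1.sublist (List.take_sublist _ _), fun x hx => ?_,
    fun k hk => ?_⟩
  · exact h.2.2.2.1 x (List.mem_of_mem_take hx)
  · show G.inc p ((l.2.take (g i)).take (g k))
    rw [List.take_take, min_eq_left (g_strictMono.monotone (show k ≤ i from hk))]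
    exact h.2.2.2.2 k (hk.trans hi)

theorem pre_lin (h : l ∈ lin X) (hi : i ≤ l.1) : pre i l ∈ lin X := by
  rw [mem_lin] at h ⊢
  exact ⟨take_length h.1 hi, h.2.1.sublist (List.take_sublist _ _),
    fun x hx => h.2.2 x (List.mem_of_mem_take hx)⟩

theorem Str.On.ne (h : G.On p l) (hx : x ∈ l.2) : ¬ G.pt x := h.2.2.2.1 x hx

theorem Str.On.exists_letter (h : G.On p l) : ∃ x, x ∈ l.2 := by
  have h1 : 0 < l.2.length := by rw [h.2.1]; exact g_pos _
  exact List.exists_mem_of_length_pos h1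

theorem Str.mem_pts : p ∈ G.pts l X ↔ p ∈ X ∧ G.On p l := by
  unfold Str.pts; rw [Finset.mem_filter]

theorem Str.pts_mono (h : A ⊆ B) : G.pts l A ⊆ G.pts l B := Finset.filter_subset_filter _ h

theorem Str.pts_union [DecidableEq V] (A B : Finset V) : G.pts l (A ∪ B) = G.pts l A ∪ G.pts l B :=
  Finset.filter_union _ _ _

theorem Str.mem_ed {e : V × V} : e ∈ G.ed X ↔ e.1 ∈ X ∧ e.2 ∈ X ∧ G.R e.1 e.2 := by
  unfold Str.ed; rw [Finset.mem_filter, Finset.mem_product, and_assoc]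

theorem Str.mem_ic {e : V × (ℕ × List V)} : e ∈ G.ic X ↔ e.1 ∈ X ∧ e.2 ∈ lin X ∧ G.On e.1 e.2 := by
  unfold Str.ic; rw [Finset.mem_filter, Finset.mem_product, and_assoc]

theorem Str.mem_fl {e : (V × V) × (ℕ × List V)} : e ∈ G.fl X ↔
    e.1 ∈ G.ed X ∧ e.2 ∈ lin X ∧ G.On e.1.1 e.2 ∧ G.On e.1.2 e.2 := by
  unfold Str.fl; rw [Finset.mem_filter, Finset.mem_product, and_assoc]

theorem Str.R.symm (h : G.R x y) : G.R y x := ⟨h.2.1, h.1, h.2.2.1.symm, h.2.2.2.symm⟩

theorem Str.nl_mono (h : A ⊆ B) : G.nl j p A ≤ G.nl j p B :=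
  Finset.card_le_card (Finset.filter_subset_filter _ (lin_mono h))

theorem Str.nl_pos_iff : 0 < G.nl j p X ↔ ∃ l ∈ lin X, l.1 = j ∧ G.On p l := by
  unfold Str.nl
  rw [Finset.card_pos]
  constructor
  · rintro ⟨l, hl⟩
    rw [Finset.mem_filter] at hl
    exact ⟨l, hl⟩
  · rintro ⟨l, hl⟩
    exact ⟨l, Finset.mem_filter.2 hl⟩

theorem Str.nl_unique (h : G.nl j p X ≤ 1) {l l' : ℕ × List V} (hl : l ∈ lin X) (hj : l.1 = j)
    (ho : G.On p l) (hl' : l' ∈ lin X) (hj' : l'.1 = j) (ho' : G.On p l') : l = l' := by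
  unfold Str.nl at h
  exact Finset.card_le_one.1 h l (Finset.mem_filter.2 ⟨hl, hj, ho⟩) l'
    (Finset.mem_filter.2 ⟨hl', hj', ho'⟩)

theorem Str.two_le_nl {l l' : ℕ × List V} (hl : l ∈ lin X) (hj : l.1 = j)
    (ho : G.On p l) (hl' : l' ∈ lin X) (hj' : l'.1 = j) (ho' : G.On p l') (hne : l ≠ l') :
    2 ≤ G.nl j p X := by
  by_contra h
  exact hne (Str.nl_unique (by omega) hl hj ho hl' hj' ho')

/-- a point on a line of level `j` of `X` is on lines of all the lower levels -/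
theorem Str.nl_pre (h : 0 < G.nl j p X) (hi : i ≤ j) : 0 < G.nl i p X := by
  rw [Str.nl_pos_iff] at h ⊢
  obtain ⟨l, h1, rfl, h3⟩ := h
  exact ⟨LW.pre i l, pre_lin h1 hi, rfl, h3.pre hi⟩

/-- the level of a line in a small set -/
theorem lin_level (h : l ∈ lin X) (hX : X.card < g j) : l.1 < j := by
  have h1 := (mem_lin.1 h).card
  by_contra h2
  have := g_strictMono.monotone (not_lt.1 h2)
  omega

theorem Str.nl_eq_zero (hX : X.card < g j) : G.nl j p X = 0 := by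
  by_contra h
  obtain ⟨l, h1, h2, h3⟩ := Str.nl_pos_iff.1 (Nat.pos_of_ne_zero h)
  have := lin_level h1 hX
  omega

theorem Str.dl_empty (G : Str V) : G.dl ∅ = 0 := by
  have h1 : G.ed ∅ = ∅ := by
    ext e; rw [Str.mem_ed]; simp
  have h2 : G.ic ∅ = ∅ := by
    ext e; rw [Str.mem_ic]; simp
  have h3 : G.fl ∅ = ∅ := by
    ext e; rw [Str.mem_fl, h1]; simp
  unfold Str.dl
  rw [h1, h2, h3]
  simp

/-! ### P-closed sets -/

theorem Str.PC.inter [DecidableEq V] (hA : G.PC A Z) (hB : G.PC B Z) : G.PC (A ∩ B) Z where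
  sub := fun x hx => hA.sub (Finset.mem_coe.2 (Finset.mem_inter.1 (Finset.mem_coe.1 hx)).1)
  g1 := by
    intro l hl h x hx
    rw [Finset.mem_inter]
    exact ⟨hA.g1 l hl (h.trans (Finset.card_le_card (Str.pts_mono Finset.inter_subset_left))) x hx,
      hB.g1 l hl (h.trans (Finset.card_le_card (Str.pts_mono Finset.inter_subset_right))) x hx⟩
  g2 := by
    intro p hp hpn j
    rw [Finset.mem_inter, not_and_or] at hpn
    rcases hpn with h | h
    · exact (Str.nl_mono Finset.inter_subset_left).trans (hA.g2 p hp h j)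
    · exact (Str.nl_mono Finset.inter_subset_right).trans (hB.g2 p hp h j)

theorem Str.PC.trans (hA : G.PC A ↑B) (hB : G.PC B Z) : G.PC A Z where
  sub := hA.sub.trans hB.sub
  g1 := by
    intro l hl h x hx
    have hAB : A ⊆ B := Finset.coe_subset.1 hA.sub
    have h1 := hB.g1 l hl (h.trans (Finset.card_le_card (Str.pts_mono hAB)))
    exact hA.g1 l (fun x hx => Finset.mem_coe.2 (h1 x hx)) h x hx
  g2 := by
    intro p hp hpn j
    have hAB : A ⊆ B := Finset.coe_subset.1 hA.sub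
    by_cases hpB : p ∈ B
    · exact hA.g2 p (Finset.mem_coe.2 hpB) hpn j
    · exact (Str.nl_mono hAB).trans (hB.g2 p hp hpB j)

theorem Str.PC.mono (hA : G.PC A Z) (hY : Y ⊆ Z) (h : ↑A ⊆ Y) : G.PC A Y where
  sub := h
  g1 := fun l hl => hA.g1 l fun x hx => hY (hl x hx)
  g2 := fun p hp => hA.g2 p (hY hp)

theorem Str.PC.self (A : Finset V) : G.PC A ↑A where
  sub := subset_rfl
  g1 := fun l hl _ x hx => Finset.mem_coe.1 (hl x hx)
  g2 := fun p hp hpn => absurd (Finset.mem_coe.1 hp) hpn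

theorem Str.pts_empty : G.pts l ∅ = ∅ := Finset.filter_empty _

theorem Str.PC.empty (Z : Set V) : G.PC ∅ Z where
  sub := by simp
  g1 := by
    intro l _ h
    rw [Str.pts_empty, Finset.card_empty] at h
    have := N_pos l.1
    omega
  g2 := by
    intro p _ _ j
    rw [Str.nl_eq_zero (by rw [Finset.card_empty]; exact g_pos j)]
    omega

/-- the points of a line not in the P-closed set `A` -/
theorem Str.PC.pts_lt (hA : G.PC A Z) (hl : ∀ x ∈ l.2, x ∈ Z) (hx : ∃ x ∈ l.2, x ∉ A) :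
    (G.pts l A).card < N l.1 := by
  by_contra h
  obtain ⟨x, hx, hxA⟩ := hx
  exact hxA (hA.g1 l hl (not_lt.1 h) x hx)

theorem Str.exists_isP (h : ∃ H, G.PC H Z ∧ S ⊆ H) : ∃ H, G.IsP S H Z := by
  obtain ⟨C0, hC0, hS0⟩ := h
  obtain ⟨C, hC, hmin⟩ := Finset.exists_min_image
    (C0.powerset.filter fun H => G.PC H Z ∧ S ⊆ H) Finset.card
    ⟨C0, by simp only [Finset.mem_filter, Finset.mem_powerset]; exact ⟨Finset.Subset.refl _, hC0, hS0⟩⟩
  simp only [Finset.mem_filter, Finset.mem_powerset] at hC hmin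
  refine ⟨C, hC.2.1, hC.2.2, fun H' h' hS' => ?_⟩
  have := hmin (C ∩ H') ⟨Finset.inter_subset_left.trans hC.1, hC.2.1.inter h',
    Finset.subset_inter hC.2.2 hS'⟩
  have e : C ∩ H' = C := Finset.eq_of_subset_of_card_le Finset.inter_subset_left this
  rw [← e]
  exact Finset.inter_subset_right

theorem Str.IsP.unique {H H' : Finset V} (h : G.IsP S H Z) (h' : G.IsP S H' Z) : H = H' :=
  Finset.Subset.antisymm (h.2.2 H' h'.1 h'.2.1) (h'.2.2 H h.1 h.2.1)

/-! ### closed sets -/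

theorem Str.Cl.sub (h : G.Cl A Z) : ↑A ⊆ Z := h.1.sub

theorem Str.Cl.self (A : Finset V) : G.Cl A ↑A :=
  ⟨Str.PC.self A, fun _ hB hAB => absurd (Finset.coe_subset.1 hB.sub) hAB.2⟩

theorem Str.Cl.le (hA : G.Cl A Z) (hB : G.PC B Z) (h : A ⊆ B) : G.dl A ≤ G.dl B := by
  rcases h.eq_or_ssubset with rfl | h
  · exact le_rfl
  · exact (hA.2 B hB h).le

theorem Str.Cl.down (hA : G.Cl A Z) (hAB : A ⊆ B) (hB : G.PC B Z) : G.Cl A ↑B :=
  ⟨hA.1.mono hB.sub (Finset.coe_subset.2 hAB), fun _ hJ hlt => hA.2 _ (hJ.trans hB) hlt⟩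

theorem Str.C1.mono (h : G.C1 Z) (hY : Y ⊆ Z) : G.C1 Y :=
  fun j S T hS hT => h j S T (hS.trans hY) (hT.trans hY)

theorem Str.Cls.mono (h : G.Cls Z) (hY : Y ⊆ Z) (hp : ∀ S, G.PC S Y → G.PC S Z) : G.Cls Y where
  c1 := h.c1.mono hY
  c2 := fun X hX => h.c2 X (hp X hX)

theorem Str.Cls.sub (h : G.Cls Z) (hB : G.PC B Z) : G.Cls ↑B :=
  h.mono hB.sub fun _ hS => hS.trans hB

theorem Str.amb_finset (h1 : G.C1 ↑A) : G.Amb ↑A :=
  ⟨h1, fun _ hS => ⟨A, Finset.coe_subset.1 hS, Str.Cl.self A⟩⟩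

theorem Str.exists_isP' (h : G.Amb Z) (hS : ↑S ⊆ Z) : ∃ H, G.IsP S H Z := by
  obtain ⟨C, hSC, hC⟩ := h.fin S hS
  exact Str.exists_isP ⟨C, hC.1, hSC⟩

theorem Str.IsC.sub (hC : G.IsC S C Z) (hT : G.Cl T Z) (h : S ⊆ T) : G.dl C ≤ G.dl T :=
  hC.1.le hT.1 (hC.2.2 T hT h)

theorem Str.IsC.unique {H H' : Finset V} (h : G.IsC S H Z) (h' : G.IsC S H' Z) : H = H' :=
  Finset.Subset.antisymm (h.2.2 H' h'.1 h'.2.1) (h'.2.2 H h.1 h.2.1)

theorem Rich.amb {M : Str ℕ} {Ω : Set ℕ} (h : Rich M Ω) : M.Amb Ω := ⟨h.k.c1, h.fin⟩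

end

end Run7.h520.LW
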