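import Pool.Agent.Run7.h520.LW.I2

/-! # Piece FIN: the abstract structure -/

set_option autoImplicit false
set_option linter.all false

namespace Run7.h520.LW
open Classical

/-- the vertices of the rich structure -/
def Dom (Ω : Set ℕ) : Type := {v : ℕ // v ∈ Ω}

instance (Ω : Set ℕ) : Countable (Dom Ω) := inferInstanceAs (Countable {v : ℕ // v ∈ Ω})

section

variable {M : Str ℕ} {Ω : Set ℕ}

/-- values -/
def vl {α : Type} (s : α → Dom Ω) : α → ℕ := fun i => (s i).1

theorem vl_mem {α : Type} (s : α → Dom Ω) (i : α) : vl s i ∈ Ω := (s i).2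

theorem vl_elim {α β : Type} (s : α → Dom Ω) (t : β → Dom Ω) :
    vl (Sum.elim s t) = Sum.elim (vl s) (vl t) := by
  funext i
  rcases i with i | i <;> rfl

noncomputable def geo (h : Rich M Ω) (hs : S_SIM M Ω) (hb : S_BT) (hx : S_EX) : Geo (Dom Ω) where
  Sim := fun s t => SimV M Ω (vl s) (vl t)
  refl := fun s => hs.refl (vl s) (vl_mem s)
  symm := fun h => hs.symm h
  trans := fun h h' => hs.trans h h'
  comp := fun g h => hs.comp h g
  eq := by
    rintro α s t ⟨A, f, hA, hf, hA', hst⟩ i j hij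
    apply Subtype.ext
    have h1 := (hst i).2
    have h2 := (hst j).2
    have h3 : vl s i = vl s j := congrArg Subtype.val hij
    rw [h3] at h1
    exact h1.symm.trans h2
  forth := by
    intro α β _ _ s t hst x
    obtain ⟨y, hy, h1⟩ := hs.forth hst (vl x) (vl_mem x)
    refine ⟨fun i => ⟨y i, hy i⟩, ?_⟩
    rw [vl_elim, vl_elim]
    exact h1
  fin := by
    intro α _
    obtain ⟨F, hF, h1, h2⟩ := hs.fin α
    refine ⟨{s | vl s ∈ F}, ?_, ?_⟩
    · refine Set.Finite.preimage (f := fun s : α → Dom Ω => vl s) ?_ hF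
      intro s _ t _ hst
      funext i
      exact Subtype.ext (congrFun hst i)
    · intro t
      obtain ⟨s, hsF, hst⟩ := h2 (vl t) (vl_mem t)
      exact ⟨fun i => ⟨s i, h1 s hsF i⟩, hsF, hst⟩
  branch := by
    intro n m k u c c' hc
    obtain ⟨j, S, u', h1, h2, h3⟩ := hb M Ω h n m k (vl u) (fun j => vl (c j))
      (fun j t => vl (c' j t)) (vl_mem u) (fun j => vl_mem (c j)) (fun j t => vl_mem (c' j t))
      (fun j t => by
        have := hc j t
        rw [vl_elim, vl_elim] at this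
        exact this)
    refine ⟨j, S, fun i => ⟨u' i, h2 i⟩, h1, fun t ht => ?_⟩
    rw [vl_elim, vl_elim]
    exact h3 t ht
  R := fun x y => M.R x.1 y.1
  Rinv := by
    rintro s t ⟨A, f, hA, hf, hA', hst⟩ hR
    have h1 := (hf.R _ (hst 0).1 _ (hst 1).1).2 hR
    rw [(hst 0).2, (hst 1).2] at h1
    exact h1
  low := by
    intro k
    obtain ⟨b, h1, h2, ⟨S, h3⟩, S', h4, x, hx1, hx2⟩ := hx M Ω h k
    refine ⟨fun i => ⟨b i, h1 i⟩, ?_, ⟨S, ?_⟩, S', h4, ⟨x, hx1⟩, hx2⟩
    · intro r σ τ hσ hτ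
      exact h2 r σ τ hσ.injective hτ.injective
    · rintro ⟨a, ha⟩
      exact h3 ⟨a.1, a.2, ha⟩

end

theorem FIN (hM : S_MOD) (hR : S_RICH) (hs : ∀ (M : Str ℕ) (Ω : Set ℕ), Rich M Ω → S_SIM M Ω)
    (hb : S_BT) (hx : S_EX) : ¬ AllLow := by
  obtain ⟨M, Ω, h⟩ := hR
  exact hM (Dom Ω) (geo h (hs M Ω h) hb hx)

end Run7.h520.LW
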