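import Mathlib

/-!
# The abstract structure used for the model theory, and the statement to be refuted

Piece MOD. Everything about the language is as in `Pool/Agent/Run7/h540/{Lang, M1, M2, M3}.lean`
(language: one relation symbol for every tuple, `RelMap r t := Sim r t`; it is countable; the theory
`T` of `D` is complete; `rho`, `rho_iff`, `isol`, `cov`, `stp_ext`, `seq_transfer`, `los`): copy what is
needed with the new `Geo`.

(1) `Categorical aleph0 T`: two countable models `N, N'` of `T`: finite tuples with the same type extend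
(`stp_ext`), so `FirstOrder.Language.equiv_between_cg` (Mathlib.ModelTheory.PartialEquiv) or a direct
back-and-forth along enumerations gives an isomorphism.

(2) Simplicity: let `M ⊨ T`, `φ`, `p` as in `AllLow`. Choose the branch `η` recursively so that for every
`j` the set of `t` such that `p (η|j ++ [t])` has the same type as `p (η|(j+1))` over
`p (η|0), ..., p (η|j)` is infinite (finitely many types of tuples of a given length, by `fin` / `cov`;
pigeonhole), and let `τ j : ℕ → ℕ` enumerate it injectively. In an ultrapower `M^ℕ / U` the element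
`u = [a_J]_J` realises `φ (u, p (η|j))` for all `j`. The countably many finite tuples `u`,
`c j := p (η|(j+1))`, `c' j t := p (η|j ++ [τ j t])` are transferred to `D` by the argument of
`seq_transfer` (same types of all finite subtuples). `Geo.branch` gives `j`, `S`, `u'` with
`Sim (u', c' j t) (u, c j)` for `t ∈ S`, so `φ (u', c' j t)` holds for `t ∈ S`, and by `stp_ext` there
is `a` in `M` with `φ (a, p (η|j ++ [τ j t]))` for `t ∈ S`. (The root `p []` plays no role, or include it
in all the `c j`, as you like: the types are over `c 0, ..., c (j-1)` only.)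

(3) `φ = R(x, y)` (a finite disjunction of the formulas `rho s` with `R (s 0) (s 1)`, `fin` and `Rinv`)
is not low, by `low`, in the model `D`.
-/

set_option autoImplicit false

namespace Run7.h520.LW
open FirstOrder FirstOrder.Language

/-- A set with a back-and-forth system, the property of branches (which gives simplicity), and a
relation which is not low. -/
structure Geo (D : Type) where
  Sim : ∀ {α : Type}, (α → D) → (α → D) → Prop
  refl : ∀ {α : Type} [Finite α] (s : α → D), Sim s s
  symm : ∀ {α : Type} {s t : α → D}, Sim s t → Sim t s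
  trans : ∀ {α : Type} {s t r : α → D}, Sim s t → Sim t r → Sim s r
  comp : ∀ {α β : Type} {s t : α → D} (g : β → α), Sim s t → Sim (s ∘ g) (t ∘ g)
  eq : ∀ {α : Type} {s t : α → D}, Sim s t → ∀ {i j : α}, s i = s j → t i = t j
  forth : ∀ {α β : Type} [Finite α] [Finite β] {s t : α → D}, Sim s t → ∀ x : β → D,
    ∃ y : β → D, Sim (Sum.elim s x) (Sum.elim t y)
  fin : ∀ (α : Type) [Finite α], ∃ F : Set (α → D), F.Finite ∧ ∀ t, ∃ s ∈ F, Sim s t
  branch : ∀ (n m k : ℕ) (u : Fin n → D) (c : ℕ → Fin m → D) (c' : ℕ → ℕ → Fin m → D),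
    (∀ j t, Sim (Sum.elim (fun x : Fin j × Fin m => c x.1 x.2) (c' j t))
      (Sum.elim (fun x : Fin j × Fin m => c x.1 x.2) (c j))) →
    ∃ (j : ℕ) (S : Finset ℕ) (u' : Fin n → D), S.card = k ∧
      ∀ t ∈ S, Sim (Sum.elim u' (c' j t)) (Sum.elim u (c j))
  R : D → D → Prop
  Rinv : ∀ {s t : Fin 2 → D}, Sim s t → R (s 0) (s 1) → R (t 0) (t 1)
  low : ∀ k : ℕ, ∃ b : ℕ → D,
    (∀ (r : ℕ) (σ τ : Fin r → ℕ), StrictMono σ → StrictMono τ → Sim (b ∘ σ) (b ∘ τ)) ∧
    (∃ S : Finset ℕ, ¬ ∃ a, ∀ i ∈ S, R a (b i)) ∧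
    ∃ S : Finset ℕ, S.card = k ∧ ∃ a, ∀ i ∈ S, R a (b i)

/-- the statement of `S14913`, which is to be refuted -/
def AllLow : Prop :=
  ∀ (L : FirstOrder.Language.{0,0}) (T : L.Theory),
    L.card ≤ Cardinal.aleph0 → T.IsComplete →
    Cardinal.Categorical (Cardinal.aleph0 : Cardinal.{0}) T →
    (∀ (M : Type) [L.Structure M] [M ⊨ T] [Nonempty M] (n m k : ℕ)
        (φ : L.Formula (Fin n ⊕ Fin m)) (p : List ℕ → Fin m → M),
      (∀ (η : ℕ → ℕ) (J : ℕ), ∃ a : Fin n → M, ∀ j < J,
          φ.Realize (Sum.elim a (p (List.ofFn (fun i : Fin j => η i))))) →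
      ∃ s : List ℕ, ∃ S : Finset ℕ, S.card = k ∧
        ∃ a : Fin n → M, ∀ i ∈ S, φ.Realize (Sum.elim a (p (s ++ [i])))) →
    ∀ (n m : ℕ) (φ : L.Formula (Fin n ⊕ Fin m)), ∃ k : ℕ,
      ∀ (M : Type) [L.Structure M] [M ⊨ T] [Nonempty M] (b : ℕ → Fin m → M),
        (∀ (N : ℕ) (ψ : L.Formula (Fin N × Fin m)) (f g : Fin N → ℕ),
            StrictMono f → StrictMono g →
            (ψ.Realize (fun q => b (f q.1) q.2) ↔ ψ.Realize (fun q => b (g q.1) q.2))) →
        (∃ S : Finset ℕ, ¬ ∃ a : Fin n → M, ∀ i ∈ S, φ.Realize (Sum.elim a (b i))) →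
        ∀ S : Finset ℕ, S.card = k →
          ¬ ∃ a : Fin n → M, ∀ i ∈ S, φ.Realize (Sum.elim a (b i))

/-- piece MOD -/
def S_MOD : Prop := ∀ (D : Type) [Countable D], Geo D → ¬ AllLow

end Run7.h520.LW
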