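import Pool.Agent.Run7.h520.LW.Easy
import Pool.Agent.Run7.h520.LW.ModDef

/-!
# Interface: the statements of the pieces

Goal: `S14914` (MP_75b3be_lc): an omega-categorical simple theory which is not low.

The structures (`Base.lean`) have vertices which are points (`pt`) or letters (not `pt`), a graph
`R` on the points and the relation `On p l` between a point `p` and a (possible) line
`l = (j, [s 1, ..., s (g j)])` of level `j` (a list of `g j` distinct letters); if `p` is on a line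
of level `j` then it is on its initial segments, which are lines of all the levels `i ≤ j`.
`lin X` = the possible lines with letters in `X`; `G.ic X` = incidences in `X`; `G.ed X` = ordered
edges in `X`; `G.fl X` = flags = an ordered edge and a line containing both its end points.
`G.dl X = wt |X| - Σ_{ic} a - w 0 |ed| + Σ_{fl} q (level + 1)`.
A point on lines of levels `0, ..., j-1` (one of each) costs `r j = q j - w j` (`r_eq`), an ordered
edge between two points with common lines of the levels `0, ..., j-1` costs `w j` (`w_sum`).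
`PC X Z` (X is P-closed in Z): (g1) a line with `N` points in `X` has its letters in `X`; (g2) a
point outside `X` is on at most one line of each level of `X`.
`Easy.lean` has the basic facts (parameters: `q_pos`, `q_le_one`, `q_succ_le`, `N_mul`, `K_mul`,
`N_small`, `KN_small`, `a_ge`, `w_levels`, ...; `PC.inter`, `PC.trans`, `Cl.le`, `exists_isP'`, ...).

How to work: prove a piece in `Pool/Agent/Run7/h<you>/LW/<PIECE>.lean` as
`theorem Run7.h<you>.LW.<PIECE> : S_XXX → S_YYY → S_<PIECE>` (any pieces as hypotheses, without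
circles: NUM, MOD, EMB, CALC have none; SMK, HULL use CALC; CLO uses CALC, SMK, HULL; C1R uses
CALC, HULL; T2 uses CALC, SMK, CLO, C1R; GLUE uses EMB; RICH uses EMB, CLO, T2, GLUE;
SIM uses EMB, CLO; EX uses EMB, CLO, HULL, SIM).
`open Classical` and write `[DecidableEq V]` as an argument of all lemmas about a general type `V`
in which `∪`, `∩`, `image`, `insert` occur (then they can be used for `ℕ`).
-/

set_option autoImplicit false
set_option linter.all false

namespace Run7.h520.LW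
open Classical

/-! ### Piece EMB: transport along embeddings

Adapt `outputs/live/Pool/Agent/Run7/h540/A4.lean`. For `T ⊆ S` the map `l ↦ (l.1, l.2.map φ)` is a
bijection from `lin T` to `lin (T.image φ)` (`φ` is injective on `S`), it preserves `On` by
`Emb.on`; so the finsets `ic`, `ed`, `fl` of `T.image φ` are the images of those of `T`. -/

structure S_EMB : Prop where
  mono : ∀ {V W : Type} {G : Str V} {H : Str W} {S T : Finset V} {φ : V → W},
    Emb G H S φ → T ⊆ S → Emb G H T φ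
  comp : ∀ {V W Y : Type} [DecidableEq W] {G : Str V} {H : Str W} {J : Str Y} {S : Finset V}
    {φ : V → W} {ψ : W → Y}, Emb G H S φ → Emb H J (S.image φ) ψ → Emb G J S (ψ ∘ φ)
  congr : ∀ {V W : Type} {G : Str V} {H : Str W} {S : Finset V} {φ ψ : V → W},
    Emb G H S φ → (∀ x ∈ S, ψ x = φ x) → Emb G H S ψ
  refl : ∀ {V : Type} (G : Str V) (S : Finset V), Emb G G S id
  inv : ∀ {V W : Type} [DecidableEq V] [DecidableEq W] [Nonempty V] {G : Str V} {H : Str W}
    {S : Finset V} {φ : V → W}, Emb G H S φ → ∃ ψ : W → V, (∀ a ∈ S, ψ (φ a) = a) ∧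
      Emb H G (S.image φ) ψ ∧ (S.image φ).image ψ = S
  nl : ∀ {V W : Type} [DecidableEq W] {G : Str V} {H : Str W} {S T : Finset V} {φ : V → W},
    Emb G H S φ → T ⊆ S → ∀ x ∈ S, ∀ j, H.nl j (φ x) (T.image φ) = G.nl j x T
  pts : ∀ {V W : Type} [DecidableEq W] {G : Str V} {H : Str W} {S T : Finset V} {φ : V → W},
    Emb G H S φ → T ⊆ S → ∀ l : ℕ × List V, (∀ x ∈ l.2, x ∈ S) →
      H.pts (l.1, l.2.map φ) (T.image φ) = (G.pts l T).image φ
  dl : ∀ {V W : Type} [DecidableEq W] {G : Str V} {H : Str W} {S T : Finset V} {φ : V → W},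
    Emb G H S φ → T ⊆ S → H.dl (T.image φ) = G.dl T
  pc : ∀ {V W : Type} [DecidableEq W] {G : Str V} {H : Str W} {S T : Finset V} {φ : V → W},
    Emb G H S φ → T ⊆ S → (H.PC (T.image φ) ↑(S.image φ) ↔ G.PC T ↑S)
  cl : ∀ {V W : Type} [DecidableEq V] [DecidableEq W] {G : Str V} {H : Str W} {S T : Finset V}
    {φ : V → W}, Emb G H S φ → T ⊆ S → (H.Cl (T.image φ) ↑(S.image φ) ↔ G.Cl T ↑S)
  c1 : ∀ {V W : Type} [DecidableEq V] [DecidableEq W] {G : Str V} {H : Str W} {S : Finset V}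
    {φ : V → W}, Emb G H S φ → G.C1 ↑S → H.C1 ↑(S.image φ)
  cls : ∀ {V W : Type} [DecidableEq V] [DecidableEq W] {G : Str V} {H : Str W} {S : Finset V}
    {φ : V → W}, Emb G H S φ → (H.Cls ↑(S.image φ) ↔ G.Cls ↑S)

/-! ### Piece CALC: sums

`incl`: `ic (A ∩ B) = ic A ∩ ic B`, `ic (A ∪ B) = (ic A ∪ ic B) ∪ nic A B` disjointly (and
`ic A ⊆ ic (A ∪ B)`), the same for `ed`, `fl`; `Finset.sum_union_inter`.

`up`, `down`: for `X.card < g j` all the lines of `X` have level `< j` (`lin_level`), and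
`wt = 1 - q 1 - ... - q j - w j`, `w 0 = q 1 + ... + q j + w j` (`w_sum`), all `q i`, `i ≤ j`, are
integer multiples of `q j` (`q_div`), so `dl X = z * q j - w j * (X.card + (ed X).card)` with an
integer `z`. For `X ⊂ Y` the number `D = Y.card + (ed Y).card - X.card - (ed X).card` satisfies
`1 ≤ D ≤ 2 (g j)^2` and `w j * D ≤ 2 q (j+1) * 2 (g j)^2 ≤ q j / 2` (`q_lt`); now
`dl Y - dl X = z * q j - w j * D` with an integer `z`; if `z ≥ 1` it is `≥ q j / 2`, and if
`z ≤ 0` it is `≤ - w j`. -/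

structure S_CALC : Prop where
  /-- inclusion-exclusion -/
  incl : ∀ {V : Type} [DecidableEq V] (G : Str V) (A B : Finset V),
    G.dl (A ∪ B) + G.dl (A ∩ B) + (∑ p ∈ G.nic A B, a p.2.1) + w 0 * (G.ned A B).card =
      G.dl A + G.dl B + ∑ p ∈ G.nfl A B, q (p.2.1 + 1)
  /-- no small differences -/
  up : ∀ {V : Type} (G : Str V) (j : ℕ) (X Y : Finset V), X ⊂ Y → Y.card < g j →
    G.dl X < G.dl Y → G.dl X + q j / 2 ≤ G.dl Y
  /-- no ties -/
  down : ∀ {V : Type} (G : Str V) (j : ℕ) (X Y : Finset V), X ⊂ Y → Y.card < g j →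
    G.dl Y ≤ G.dl X → G.dl Y + w j ≤ G.dl X

/-! ### Piece SMK: submodularity

By `incl` it is enough to show
`Σ_{nfl} ρ ≤ ½ Σ_{nic} a + Σ_{e ∈ 𝒦} cm (A ∩ B) e + Σ_{e ∈ ned ∖ 𝒦} Σ_{j ∈ lv e} ρ_j`, where
`ρ_j = q (j+1)`. A new edge (in `ned`) has one end in `A ∖ B` and the other in `B ∖ A`. A new flag
`((x, y), l)` has one of these forms.
(1) `(x, y) ∈ 𝒦` and `l ∈ lin (A ∩ B)`: paid by `cm (A ∩ B) e`.
(2) `l` is neither in `lin A` nor in `lin B`: `(x, l) ∈ nic`; charge the flag to `(x, l)`; fewer than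
`2 N` points of `A ∪ B` are on `l` (g1 for `A` and `B`, `PC.pts_lt`).
(3) `l ∈ lin A ∖ lin B` (or symmetrically). One of `x, y`, say `p`, is not in `A`, so `p ∈ B ∖ A` and
`(p, l) ∈ nic`; let `p'` be the other one. (3a) `p' ∈ B`: charge to `(p, l)`; fewer than `N` such `p'`
(g1 for `B`), at most two flags for each. (3b) `(p, p') ∈ 𝒦`: charge to `(p, l)`, at most `N` such
`p'` by hypothesis, two flags for each (`𝒦` is symmetric). (3c) `(p, p')` is a new edge not in `𝒦`.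
(4) `l ∈ lin A ∩ lin B`, `(x, y)` a new edge not in `𝒦`.
For a new edge `e = (x, y) ∉ 𝒦` the flags of (3c), (4) of level `j` are: at most one `l ∈ lin A`
(g2 for `A` and the end outside `A`) and at most one in `lin B`. They are paid by `ρ_j` for
`j ∈ lv A B e`, except if there are two different ones, `l1 ∈ lin A ∖ lin B` and
`l2 ∈ lin B ∖ lin A`; call `e` bad of level `j`. Let `P` be the set of the ends in `B ∖ A` of the bad
edges of level `j` and `Q` the set of the ends in `A ∖ B`; `p ∈ P` is on exactly one line `l1(p)` of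
level `j` of `A` and `(p, l1(p)) ∈ nic`, similarly for `Q`; so `|P| + |Q| ≤ n_j :=` the number of
elements of `nic` of level `j`. Let `S` be the set of the letters of the `l1(p)`; `|S| ≤ g_j |P|`.
By C1 `Σ_{p' ∈ Q} (2 nl j p' S - 3) ≤ K_j g_j |P|`, so the number of pairs `(p', l)`,
`l ∈ {l1(p)}`, `p'` on `l`, is at most `(K_j g_j |P| + 3 |Q|) / 2 ≤ K_j g_j n_j`; for each such pair
the number of `p ∈ B` on `l` is `< N_j` (`l ∉ lin B`). So there are at most `2 N_j K_j g_j n_j` bad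
ordered pairs. Total charge at level `j`: `n_j ρ_j (2 N_j + 2 N_j + 2 N_j + 2 N_j K_j g_j) ≤
n_j a_j / 2` by `KN_small`. (The constants are very generous.) -/

def S_SMK : Prop := ∀ {V : Type} [DecidableEq V] {G : Str V} {Z : Set V} {A B : Finset V}
  (𝒦 : Finset (V × V)), G.C1 Z → G.PC A Z → G.PC B Z → 𝒦 ⊆ G.ned A B →
  (∀ e ∈ 𝒦, e.swap ∈ 𝒦) →
  (∀ p l, (p, l) ∈ G.nic A B → (𝒦.filter fun e => e.1 = p ∧ G.On e.2 l).card ≤ N l.1) →
  G.dl (A ∪ B) + G.dl (A ∩ B) + (∑ p ∈ G.nic A B, a p.2.1) / 2 +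
      ∑ e ∈ 𝒦, (w 0 - G.cm (A ∩ B) e) +
      ∑ e ∈ G.ned A B \ 𝒦, (w 0 - ∑ j ∈ G.lv A B e, q (j + 1)) ≤ G.dl A + G.dl B

/-! ### Piece HULL

`ρ_j = q (j+1)`. Build a chain from `H` to the hull `X`, always doing a step (L) if possible:
(L) there is a line `l`, letters in `Z`, `N ≤ (pts l H_i).card`, not all letters in `H_i`: add its
letters; (P) otherwise, if there is a point `p ∈ Z ∖ H_i` with `2 ≤ nl j p H_i` for some `j`, add it.
Invariant: every line with letters in `Z`, not all in `H_i`, has at most `2 N` points in `H_i` (a step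
(P) is done only when all these numbers are `< N`; a step (L) adds only letters, and letters are
not on lines). When no step is possible `H_i` is P-closed, and it is the hull (all the
P-closed sets containing `H` contain the chain). (Or: strong induction on `(C \ H).card`.)
Step (L), `s ≤ g j` new letters: `Δ dl ≤ wt s - Σ_{new incidences (p, l')} (a_{l'} - 2 N_{l'} ρ_{l'})`
(no new edges; each new flag `((x, y), l')` is charged to `(x, l')`, at most `2 N` points on `l'`)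
`≤ g_j - N_j q_j / 2 = - g_j ≤ -1/2` (at least the `N_j` points on `l` give new incidences).
Step (P), `t_i = nl i p H`: `Δ dl ≤ wt - Σ_i t_i a_i + 2 Σ_{q ~ p} (-w 0 + Σ_i ρ_i n_i(p, q))`, with
`n_i(p,q)` = the number of lines of level `i` of `H` containing `p, q`. Here
`Σ_q (n_i(p,q) - 1)^+ ≤ K_i g_i t_i`, and it is `0` if `t_i ≤ 1`: apply C1 to the set `S` of the letters
of the `t_i` lines, `|S| ≤ g_i t_i`, and `Y = {q : n_i(p,q) ≥ 2}`, `n_i(p,q) ≤ nl i q S`. So
`Δ dl ≤ wt - Σ_i t_i a_i + Σ_{t_i ≥ 2} 2 ρ_i K_i g_i t_i` (`w_levels'`). Fix `j` with `t_j ≥ 2`; then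
`t_i ≥ 1` for `i < j` (`Str.nl_pre`), so with `ε_i = 2 ρ_i K_i g_i ≤ q_i / 2^20`:
`Δ dl ≤ wt - Σ_{i<j} a_i - t_j (a_j - ε_j) = r j - t_j (a_j - ε_j) ≤ - (q_j/4) (2 t_j - 3)`.
A point `p ∈ Y` with `2 ≤ nl j p H` is in the hull, so it is added at some step, and `nl` grows.
`hull` follows by adding up (if all steps are (P) then only points are added).

`pts`: let `H' = {x ∈ X : x ∈ H ∨ ∃ j, 2 ≤ nl j x H}`. It is P-closed in `Z`: (g1) a line with `N ≥ 1`
points in `H'` has its letters in `X`, they are not points, so they are in `H`; (g2) `nl j p H' =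
nl j p H` because the lines through points have letters which are not points. So `X = H'`. The
second part: add the points of `X ∖ H'` one by one, each step is a step (P).

`ins`: if `v` is a point then the new edges `(v, q)` cost `w 0 - Σ_{common lines} ρ ≥ 0` since `v` is
on at most one line of each level (`w_levels'`); if `v` is a letter there are new incidences
`(p, l)`, `v ∈ l.2`, and new flags, charged to `(p, l)`: at most `N` for each, and `N ρ ≤ a`. -/

structure S_HULL : Prop where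
  hull : ∀ {V : Type} [DecidableEq V] {G : Str V} {Z : Set V} {H C : Finset V},
    G.C1 Z → G.PC C Z → H ⊆ C →
    (∀ l : ℕ × List V, (∀ x ∈ l.2, x ∈ Z) → (∃ x ∈ l.2, x ∉ H) →
      (G.pts l H).card ≤ 2 * N l.1) →
    ∃ X, G.IsP H X Z ∧ (X = H ∨ G.dl X < G.dl H) ∧
      (∀ (j : ℕ) (Y : Finset V), ↑Y ⊆ Z → Disjoint Y H → (∀ p ∈ Y, 2 ≤ G.nl j p H) →
        G.dl X + ∑ p ∈ Y, q j / 4 * (2 * (G.nl j p H : ℝ) - 3) ≤ G.dl H) ∧
      ((∀ x ∈ X, x ∉ H → G.pt x) ∨ G.dl X + 1 / 2 ≤ G.dl H)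
  /-- the hull when only points are added -/
  pts : ∀ {V : Type} [DecidableEq V] {G : Str V} {Z : Set V} {H X : Finset V},
    G.C1 Z → G.IsP H X Z → (∀ x ∈ X, x ∉ H → G.pt x) →
    (∀ p ∈ X, p ∉ H → ∃ j, 2 ≤ G.nl j p H) ∧
    (∀ H' : Finset V, H ⊆ H' → H' ⊆ X → G.dl X ≤ G.dl H')
  /-- a new point -/
  ins : ∀ {V : Type} [DecidableEq V] {G : Str V} {Z : Set V} {C : Finset V} {v : V},
    G.C1 Z → ↑C ⊆ Z → v ∉ C → (∀ j, G.nl j v C ≤ 1) →
    (∀ l : ℕ × List V, v ∈ l.2 → (∀ x ∈ l.2, x ∈ insert v C) → (G.pts l C).card ≤ N l.1) →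
    G.dl (insert v C) ≤ G.dl C + wt

/-! ### Piece CLO: closure theory (compare `Pool/Agent/Run7/h540/A3.lean`)

`sub_mod` is `S_SMK` with `𝒦 = ∅` (the other terms are `≥ 0`, `w_levels'`). `union_le`: `S_HULL.hull`
for `A ∪ B`: a line with letters in `Z`, not all in `A ∪ B`, has `< N` points in `A` and in `B`.
`trans`, `inter`, `exists_isC`, `isC_le`, `isC_union_le`: exactly as in h540/A3.lean (the
maximisation in `IsC.le` is over a finite set). `insert_le`: `S_HULL.ins` and `S_HULL.hull` for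
`insert v C`. `empty`: for a P-closed nonempty `B`, `dl B ≥ f |B| ≥ 0 = dl ∅`, and there are no ties
(`S_CALC.down` with `j = B.card`, `g_lt`). `card`: `dl C ≤ wt * S.card` by induction with `insert_le`
and `empty`, and `f C.card ≤ dl C`, `f_unb`, `f_mono`. -/

structure S_CLO : Prop where
  sub_mod : ∀ {V : Type} [DecidableEq V] {G : Str V} {Z : Set V} {A B : Finset V},
    G.C1 Z → G.PC A Z → G.PC B Z → G.dl (A ∪ B) + G.dl (A ∩ B) ≤ G.dl A + G.dl B
  union_le : ∀ {V : Type} [DecidableEq V] {G : Str V} {Z : Set V} {A B H : Finset V},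
    G.Amb Z → G.PC A Z → G.PC B Z → G.IsP (A ∪ B) H Z →
    G.dl H + G.dl (A ∩ B) ≤ G.dl A + G.dl B
  trans : ∀ {V : Type} [DecidableEq V] {G : Str V} {Z : Set V} {A B : Finset V},
    G.Amb Z → G.Cl A ↑B → G.Cl B Z → G.Cl A Z
  inter : ∀ {V : Type} [DecidableEq V] {G : Str V} {Z : Set V} {A B : Finset V},
    G.Amb Z → G.Cl A Z → G.Cl B Z → G.Cl (A ∩ B) Z
  exists_isC : ∀ {V : Type} {G : Str V} {Z : Set V} {S : Finset V},
    G.Amb Z → ↑S ⊆ Z → ∃ C, G.IsC S C Z
  /-- the closure minimises the predimension among the P-closed supersets -/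
  isC_le : ∀ {V : Type} {G : Str V} {Z : Set V} {S T C : Finset V},
    G.Amb Z → G.PC T Z → S ⊆ T → G.IsC S C Z → G.dl C ≤ G.dl T
  /-- the closure in terms of the hull -/
  isC_union_le : ∀ {V : Type} [DecidableEq V] {G : Str V} {Z : Set V} {S T C C' H : Finset V},
    G.Amb Z → G.IsC S C Z → G.IsC T C' Z → G.IsC (S ∪ T) H Z →
    G.dl H + G.dl (C ∩ C') ≤ G.dl C + G.dl C'
  insert_le : ∀ {V : Type} [DecidableEq V] {G : Str V} {Z : Set V} {S C H : Finset V} {v : V},
    G.Amb Z → v ∈ Z → G.IsC S C Z → G.IsC (insert v S) H Z → G.dl H ≤ G.dl C + wt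
  empty : ∀ {V : Type} {G : Str V} {Z : Set V}, G.Cls Z → G.Cl ∅ Z
  /-- the size of the closure is bounded -/
  card : ∀ n : ℕ, ∃ B : ℕ, ∀ {V : Type} {G : Str V} {Z : Set V} {S C : Finset V},
    G.Amb Z → G.Cls Z → S.card ≤ n → G.IsC S C Z → C.card ≤ B

/-! ### Piece C1R: relative sparsity over a closed set

We may remove the points (not letters) and the elements of `C` from `S`: this does not change
`nl j p (C ∪ S)`, as lines through points have only letters. Let `H = C ∪ S` and `X` its hull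
(`S_HULL.hull`; the lines not in `H` have at most `N` points in `H`, they are all in `C`). By
`S_HULL.hull`, `dl X + Σ_{p ∈ Y, nl j p H ≥ 2} (q_j/4) (2 nl j p H - 3) ≤ dl H`, and `dl C ≤ dl X`
(`Cl.le`). And `dl H ≤ dl C + |S| - Σ_{new (p, l)} (a_l - N_l ρ_l) ≤
dl C + |S| - Σ_{p ∈ C} (q_j/2) (nl j p H - nl j p C)`: no new edges, each new flag
`((x, y), l)` is charged to the new incidence `(x, l)`, at most `N_l` points of `C` are on `l` (g1).
Multiply by `4 / q_j = K_j` (`K_mul`); the `p ∈ Y` with `nl ≤ 1` contribute negative terms. -/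

def S_C1R : Prop := ∀ {V : Type} [DecidableEq V] {G : Str V} {Z : Set V} {C : Finset V} (j : ℕ)
  (S Y : Finset V), G.Amb Z → G.Cl C Z → ↑S ⊆ Z → ↑Y ⊆ Z → Disjoint Y C →
  ∑ p ∈ Y, (2 * (G.nl j p (C ∪ S) : ℤ) - 3) +
      ∑ p ∈ C, 2 * ((G.nl j p (C ∪ S) : ℤ) - G.nl j p C) ≤ K j * (S \ C).card

/-! ### Piece T2: glued structures

Let `Q = D ∩ U`. `c1`: given `S', Y ⊆ D ∪ U`; C1 of `D` for `S' ∩ D`, `Y ∩ D`, and `S_C1R` in `U` with
`C = Q` for `S' ∩ U`, `(Y ∩ U) ∖ Q` (`Str.amb_finset`): for `p ∈ D ∖ U`, `nl j p S' = nl j p (S' ∩ D)`,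
for `p ∈ U ∖ D`, `nl j p S' ≤ nl j p (Q ∪ (S' ∩ U))`, for `p ∈ Q`, `nl j p S' ≤ nl j p (S' ∩ D) +
(nl j p (Q ∪ (S' ∩ U)) - nl j p Q)`; add up, `|S' ∩ D| + |(S' ∩ U) ∖ Q| = |S'|`.
`pcD`: (g1) if `N ≥ 1` points of `D` are on `l` and `l` is not in `D`, then by `inc` these points
are in `U` and `l` is in `U`, so `l` has `N` points in `Q`, so it is in `Q` (`Q` is P-closed in `U`);
(g2) for `p ∈ U ∖ D` the lines of `D` through `p` are in `U` so in `Q`. `pcU` by symmetry.
`dl`: `S_CALC.incl` for `A = X ∩ D`, `B = X ∩ U`: `nic A B = ∅` by `inc`; a new flag `((x, y), l)`: `(x, y)`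
must be a new edge and `l ∈ lin (A ∩ B)` (if `l ∈ lin A ∖ lin B` then `x, y ∈ D` by `inc`).
`free`: `ned = ∅`, so `dl X = dl (X ∩ D) + dl (X ∩ U) - dl (X ∩ Q)`. If `X` is P-closed in `D ∪ U` then
`X ∩ D` is P-closed in `D` etc. If `D ⊂ X`, `dl X = dl D + dl (X ∩ U) - dl Q > dl D`. So `Cl D`,
`Cl U`. For `X` P-closed, if `X ∩ D` is not contained in `U` then `dl (X ∩ D) > dl (X ∩ Q)`
(`S_CLO.union_le` in `D` for `X ∩ D` and `Q`, whose hull strictly contains the closed set `Q`), and the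
same for `U`. `Cls`: let `|X ∩ D| ≤ |X ∩ U|` (else symmetric), `x = |X ∩ U|`, `y = |(X ∩ D) ∖ U|`,
`z = |X ∩ D|`, `j` the least with `z < g j`: `f |X| = f (x + y) ≤ f x + q j / 16` (`f_step`)
`≤ dl (X ∩ U) + q j / 16`, and if `y > 0`, `dl (X ∩ D) - dl (X ∩ Q) ≥ q j / 2` by `S_CALC.up`. -/

structure S_T2 : Prop where
  c1 : ∀ {V : Type} [DecidableEq V] {S : Str V} {D U : Finset V}, T2 S D U → S.C1 ↑(D ∪ U)
  pcD : ∀ {V : Type} [DecidableEq V] {S : Str V} {D U : Finset V}, T2 S D U → S.PC D ↑(D ∪ U)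
  pcU : ∀ {V : Type} [DecidableEq V] {S : Str V} {D U : Finset V}, T2 S D U → S.PC U ↑(D ∪ U)
  dl : ∀ {V : Type} [DecidableEq V] {S : Str V} {D U X : Finset V}, T2 S D U → X ⊆ D ∪ U →
    S.dl X + ∑ e ∈ S.ned (X ∩ D) (X ∩ U), (w 0 - S.cm (X ∩ (D ∩ U)) e) =
      S.dl (X ∩ D) + S.dl (X ∩ U) - S.dl (X ∩ (D ∩ U))
  free : ∀ {V : Type} [DecidableEq V] {S : Str V} {D U : Finset V}, T2 S D U →
    (∀ x ∈ D, x ∉ U → ∀ y ∈ U, y ∉ D → ¬ S.R x y) → S.Cls ↑D → S.Cls ↑U →
    S.Cls ↑(D ∪ U) ∧ S.Cl D ↑(D ∪ U) ∧ S.Cl U ↑(D ∪ U)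

/-! ### Piece GLUE: glueing two structures, with additional edges

`S.pt (inl x) = G.pt x` for `x ∈ C`, `S.pt (inr y) = H.pt y`; `S.adj z z'` iff (both in the image of
`C` and `G.R`) or (both in the image of `Z` under `gl A φ` and `H.R`) or (`z = inl x`, `z' = inr y`,
`E x y`, and both are points); `S.inc z L` iff there is a level `j` with `L.length = g j` such that
(`z = inl x`, `L = L'.map inl`, `x ∈ C`, `L' ⊆ C`, `G.On x (j, L')`) or (`z = gl y`,
`L = L'.map gl`, `y ∈ Z`, `L' ⊆ Z`, `H.On y (j, L')`). Since `φ` is an embedding the two agree on the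
image of `A`, and `S.On` is `G.On` resp. `H.On` (`Str.On.pre`). `T2.inc` is clear, the other
fields by transport (`S_EMB.c1`, `S_EMB.cl`). -/

noncomputable def gl {V W : Type} (A : Finset W) (φ : W → V) (y : W) : V ⊕ W :=
  if y ∈ A then Sum.inl (φ y) else Sum.inr y

def S_GLUE : Prop := ∀ {V W : Type} [DecidableEq V] [DecidableEq W] (G : Str V) (H : Str W)
  (C : Finset V) (A Z : Finset W) (φ : W → V) (E : V → W → Prop),
  G.C1 ↑C → H.C1 ↑Z → H.Cl A ↑Z → Emb H G A φ → G.Cl (A.image φ) ↑C →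
  ∃ S : Str (V ⊕ W), Emb G S C Sum.inl ∧ Emb H S Z (gl A φ) ∧
    T2 S (C.image Sum.inl) (Z.image (gl A φ)) ∧
    (C.image Sum.inl) ∩ (Z.image (gl A φ)) = (A.image φ).image Sum.inl ∧
    ∀ x ∈ C, x ∉ A.image φ → ∀ y ∈ Z, y ∉ A →
      (S.R (Sum.inl x) (Sum.inr y) ↔ G.pt x ∧ H.pt y ∧ E x y)

/-! ### Piece RICH: rich structures exist (compare `Pool/Agent/Run7/h540/C.lean`)

Adapt h540/C.lean; the amalgam in `exists_step` is now `S_GLUE` with `E = ⊥` together with
`S_T2.free`. Codes: `Finset ℕ × Finset ℕ × Finset ℕ × Finset (ℕ × ℕ) × Finset (ℕ × ℕ × List ℕ) × (ℕ →₀ ℕ)`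
(the sets `A`, `Z`, the points, the edges `R`, the triples `(p, j, L)` with `On p (j, L)`, the map).
-/

def S_RICH : Prop := ∃ (M : Str ℕ) (Ω : Set ℕ), Rich M Ω

/-! ### Piece SIM: back and forth (compare `Pool/Agent/Run7/h540/D1.lean`)

Adapt h540/D1.lean (and `Rich.clo_image` in h540/D3.lean). Codes for `fin`: points, `R`, and `On` as a
relation on `Fin N × Fin (N+1) × {l : List (Fin N) // l.Nodup}` (a finite type); the bound `N`
on the size of closures is `S_CLO.card`. The theorem to prove is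
`∀ M Ω, Rich M Ω → S_SIM M Ω` (from `S_EMB`, `S_CLO`). -/

/-- The back-and-forth relation between tuples of elements. -/
def SimV (M : Str ℕ) (Ω : Set ℕ) {α : Type} (s t : α → ℕ) : Prop :=
  ∃ (A : Finset ℕ) (f : ℕ → ℕ), M.Cl A Ω ∧ Emb M M A f ∧ M.Cl (A.image f) Ω ∧
    ∀ i, s i ∈ A ∧ f (s i) = t i

/-- The range of a tuple, as a finset. -/
noncomputable def rg {α : Type} (s : α → ℕ) : Finset ℕ :=
  if h : (Set.range s).Finite then h.toFinset else ∅

/-- The closure. -/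
noncomputable def clo (M : Str ℕ) (Ω : Set ℕ) (S : Finset ℕ) : Finset ℕ :=
  if h : ∃ C, M.IsC S C Ω then h.choose else S

structure S_SIM (M : Str ℕ) (Ω : Set ℕ) : Prop where
  isC : ∀ {S : Finset ℕ}, ↑S ⊆ Ω → M.IsC S (clo M Ω S) Ω
  cl_image : ∀ {A T : Finset ℕ} {f : ℕ → ℕ}, M.Cl A Ω → Emb M M A f → M.Cl (A.image f) Ω →
    T ⊆ A → (M.Cl (T.image f) Ω ↔ M.Cl T Ω)
  clo_image : ∀ {A S : Finset ℕ} {f : ℕ → ℕ}, M.Cl A Ω → Emb M M A f → M.Cl (A.image f) Ω →
    S ⊆ A → (clo M Ω S).image f = clo M Ω (S.image f)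
  refl : ∀ {α : Type} [Finite α] (s : α → ℕ), (∀ i, s i ∈ Ω) → SimV M Ω s s
  symm : ∀ {α : Type} {s t : α → ℕ}, SimV M Ω s t → SimV M Ω t s
  trans : ∀ {α : Type} {s t r : α → ℕ}, SimV M Ω s t → SimV M Ω t r → SimV M Ω s r
  comp : ∀ {α β : Type} {s t : α → ℕ}, SimV M Ω s t → ∀ g : β → α, SimV M Ω (s ∘ g) (t ∘ g)
  forth : ∀ {α β : Type} [Finite β] {s t : α → ℕ}, SimV M Ω s t → ∀ x : β → ℕ,
    (∀ i, x i ∈ Ω) → ∃ y : β → ℕ, (∀ i, y i ∈ Ω) ∧ SimV M Ω (Sum.elim s x) (Sum.elim t y)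
  cl : ∀ {α : Type} [Finite α] {s t : α → ℕ}, SimV M Ω s t → ∃ f : ℕ → ℕ,
    Emb M M (clo M Ω (rg s)) f ∧ (clo M Ω (rg s)).image f = clo M Ω (rg t) ∧
      ∀ i, f (s i) = t i
  fin : ∀ (α : Type) [Finite α], ∃ F : Set (α → ℕ), F.Finite ∧
    (∀ s ∈ F, ∀ i, s i ∈ Ω) ∧ ∀ t : α → ℕ, (∀ i, t i ∈ Ω) → ∃ s ∈ F, SimV M Ω s t

/-! ### Piece EX: the graph is not low

Given `k` choose `n ≥ 1` with `2 k w n < r n` (`r n ≥ q n / 2`, `w n ≤ 2 q (n+1)` and `q_lt` give
`w n * g n ≤ r n` with room, `g_lt`). Let `l = (n-1, [s 1, ..., s g])`, `g = g (n-1)`. Structures: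
letters `s i`, points `b i` (`i < m`) and possibly `x`, all the points on the initial segments of
`l` (`inc p L` iff `L` is one of these initial segments) and on nothing else; edges `x ~ b i` for
`i < k` only. Each point is on exactly one line of each level `< n`.
These are in `Cls`: C1 is trivial (`nl ≤ 1`, all terms negative). For `X` P-closed with `s'` letters
and `p` points let `j ≤ n` be the number of levels whose initial segment is in `X`: each point costs
`r j`, the star has at most `p` edges, each costs `2 w j`, so `dl X ≥ wt s' + (r j - 2 w j) p ≥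
s'/2 + q_j p / 4`, and `f (s' + p) ≤ (s'+p)/8` if `j = 0` (`f_small`), and for `j ≥ 1`, `s' ≥ g (j-1)` and
`f (s' + p) ≤ g (j-1) / 8 + q_j (s' + p) / 8` (`f_up`); both are `≤ dl X`.
The set `L ∪ {b i : i < m}` is closed in `L ∪ {b i : i < m'}` (each point adds `r n > 0`), `L ∪ {b i : i <
k}` is closed in `L ∪ {b i : i < k} ∪ {x}` (`r n - 2 k w n > 0`).
By richness (`∅` is closed, `S_CLO.empty`) embed `L` in `Ω` with closed image, then successively `b 0, b 1,
...` such that all the `L ∪ {b i : i < m}` are closed in `Ω`; then all `L ∪ {b i : i ∈ F}` are closed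
(`S_CLO.trans`) and the `b i` are indiscernible (the obvious map is an embedding). By richness
there is `x` for `b 0, ..., b (k-1)`. Inconsistency: let `2 K w n > 1` and suppose `x` is related to
all `b i`, `i < K`. `C = L ∪ {b i : i < K}` is closed, `x ∉ C` (no edges among the `b i`), so `x` is on
at most one line of each level of `C`, these have level `< n`, so every edge costs at least `w n`,
`dl (C ∪ {x}) ≤ dl C + wt - 2 K w n < dl C`, and `dl` of the hull of `C ∪ {x}` is at most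
`dl (C ∪ {x})` (`S_HULL.hull`), which contradicts that `C` is closed. -/

def S_EX : Prop := ∀ (M : Str ℕ) (Ω : Set ℕ), Rich M Ω → ∀ k : ℕ, ∃ b : ℕ → ℕ, (∀ i, b i ∈ Ω) ∧
  (∀ (r : ℕ) (σ τ : Fin r → ℕ), Function.Injective σ → Function.Injective τ →
    SimV M Ω (b ∘ σ) (b ∘ τ)) ∧
  (∃ S : Finset ℕ, ¬ ∃ x ∈ Ω, ∀ i ∈ S, M.R x (b i)) ∧
  ∃ S : Finset ℕ, S.card = k ∧ ∃ x ∈ Ω, ∀ i ∈ S, M.R x (b i)

/-! ### Piece BT: branches -/

def S_BT : Prop := ∀ (M : Str ℕ) (Ω : Set ℕ), Rich M Ω → ∀ (n m k : ℕ) (u : Fin n → ℕ)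
  (c : ℕ → Fin m → ℕ) (c' : ℕ → ℕ → Fin m → ℕ), (∀ i, u i ∈ Ω) → (∀ j i, c j i ∈ Ω) →
  (∀ j t i, c' j t i ∈ Ω) →
  (∀ j t, SimV M Ω (Sum.elim (fun x : Fin j × Fin m => c x.1 x.2) (c' j t))
    (Sum.elim (fun x : Fin j × Fin m => c x.1 x.2) (c j))) →
  ∃ (j : ℕ) (S : Finset ℕ) (u' : Fin n → ℕ), S.card = k ∧ (∀ i, u' i ∈ Ω) ∧
    ∀ t ∈ S, SimV M Ω (Sum.elim u' (c' j t)) (Sum.elim u (c j))

end Run7.h520.LW
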