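import Pool.Agent.Run7.h520.LW.I

/-!
# Interface, second part: the pieces of the branch theorem `S_BT`

Outline. Let `u`, `c j`, `c' j t` be as in `S_BT`, `P j = cl (c 0, ..., c (j-1))`, `U j = cl (u, P j)`,
`A' i = cl (u, c i)`. For a large `J` the set `U = U J` is almost independent from the later parts of
the branch (piece DEC), and we glue a copy of `U` to `D = cl (⋃ σ t (B))`, where
`B = cl (c I ∪ (U ∩ P∞))` and the `σ t` move `c I` to `c' I t`, over `Q = U ∩ P∞ = U ∩ B`, adding edges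
between `U` and the `σ t (B)` in such a way that `A' I` reappears as `A^t ⊆ U ∪ σ t (B)` for all
`t ∈ T`. The configuration is described in `Cfg`.
-/

set_option autoImplicit false
set_option linter.all false

namespace Run7.h520.LW
open Classical

/-- the least level of an initial segment of `l` not contained in `X` -/
noncomputable def mis {V : Type} (l : ℕ × List V) (X : Finset V) : ℕ :=
  sInf {i | ∃ x ∈ (pre i l).2, x ∉ X}

/-! ### Piece REL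

`S_SMK` with `𝒦 = ∅` for `X`, `C` and `S_HULL.hull` for `X ∪ C` (lines not in `X ∪ C` have `< N` points
in `X` and in `C`), whose hull `Y` satisfies `dl C ≤ dl Y`, with `<` if `Y ≠ C` (`C` is closed). -/

def S_REL : Prop := ∀ {V : Type} [DecidableEq V] {G : Str V} {Z : Set V} {X C : Finset V},
  G.Amb Z → G.PC X Z → G.Cl C Z →
  G.dl (X ∩ C) + (∑ p ∈ G.nic X C, a p.2.1) / 2 ≤ G.dl X ∧
  (¬ X ⊆ C → G.dl (X ∩ C) + (∑ p ∈ G.nic X C, a p.2.1) / 2 < G.dl X)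

/-! ### Piece DEC: decomposition

Put `ε = q (n0+1) / 8`, `H = U ∪ B`, `H'` its hull (`S_HULL.hull`; exists as lines not in `H` have `< N`
points in `U` and `B`), `T = (A ∩ U) ∪ (A ∩ B) = A ∩ H`. By `S_SMK` (`𝒦 = ∅`), the hull lemma and
`S_CLO.isC_le` (`dl C ≤ dl H'`):
`½ Σ_{nic U B} a + Σ_{e ∈ ned U B} (w 0 - Σ_{lv} ρ) + (dl H - dl H') + (dl H' - dl C) < ε`,
all four terms are `≥ 0`. Note `ε ≤ w n0`, `ε ≤ q n0 / 8`, `ε ≤ 1/8`.
(i) `H' ∖ H` consists of points (last clause of `S_HULL.hull`). (ii) for `p ∈ Ω ∖ H`, if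
`nl j p H ≥ 2` then `q j / 4 ≤ dl H - dl H' < ε` (`Y = {p}`), so `j > n0`.
(iii) `A ⊆ H'`: otherwise `A ∩ H' ⊂ A`, it is P-closed and contains `T`, so `dl A ≤ dl (A ∩ H')`
(`isC_le`) and by `S_CALC.down`, `dl A + w n0 ≤ dl (A ∩ H')`; by `S_CLO.union_le` the hull `H2` of
`A ∪ H'` has `dl H2 ≤ dl H' - w n0`, and `dl C ≤ dl H2` (`isC_le`), so `dl H' - dl C ≥ w n0`.
(iv) `A ⊆ H`: otherwise `V = A ∖ H ≠ ∅`, it consists of points of `H' ∖ H`; by `S_HULL.pts` each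
`v ∈ V` has `nl j v H ≥ 2` for some `j`, and only for `j > n0` by (ii). `T ⊂ A`; the hull `T1` of `T` has
`dl A ≤ dl T1 ≤ dl T` (`isC_le`), so `dl A + w n0 ≤ dl T` (`down`). We show
`dl (H ∪ A) - dl H ≤ dl A - dl T`, then `dl H' ≤ dl (H ∪ A) ≤ dl H - w n0` (`S_HULL.pts`), a
contradiction. By `S_CALC.incl` for `H`, `A` (`H ∩ A = T`) this is
`Σ_{nfl H A} ρ ≤ Σ_{nic H A} a + w 0 |ned H A|`. Let `((x, y), l)` be in `nfl H A`. `l` contains a point, so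
its letters are not points and `l ∈ lin H`; one of `x, y` is in `V`, call it `p` and the other `y`.
If `l ∉ lin A` then `(p, l) ∈ nic H A`; if moreover `y ∈ A`, charge the flag to `(p, l)` (`< N` such `y`,
two flags for each). If `y ∉ A` then `(p, y) ∈ ned H A`. If `l ∈ lin A` then `y ∉ A` (otherwise the
flag is in `A`), again `(p, y) ∈ ned H A`. For a fixed `(p, y) ∈ ned H A` (`p ∈ V`, `y ∈ H ∖ A`) the
flags of level `j ≤ n0` are at most one by (ii); those of level `j > n0`: `n_j(p, y)`; the lines of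
level `j > n0` are not in `lin A` (`A.card < g n0`), so their incidences `(p, l)` are in `nic H A`, there
are `t_j = nl j p H` of them, and `Σ_y (n_j(p,y) - 1)^+ ≤ K_j g_j t_j` by C1 (as in piece HULL, step (P)).
So `Σ_flags ≤ w 0 |ned H A| + Σ_{(p,l) ∈ nic H A} (2 N ρ + 2 K g ρ)` (`w_levels'`). This proves
`A ⊆ U ∪ B`.
Second claim: an element `(p, l)` of `nic (A ∩ U) (A ∩ B)` is in `nic U B` (if `l ∈ lin U` and `p ∈ U` then
`l ∈ lin (A ∩ U)`...), its level is `< n0`, and `a_j / 2 ≥ ε`.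
Third claim: `(p, y) ∈ ned U B`; if `n0 ∉ lv` then `w 0 - Σ_{lv} ρ > ρ_{n0} = q (n0+1) > ε` (`w_levels'` for
`insert n0 lv`); so there is a line `l` of level `n0` in `lin U ∪ lin B` containing `p`, `y`; if
`l ∉ lin B` then `(y, l) ∈ nic U B`, if `l ∉ lin U` then `(p, l) ∈ nic U B`, and `a_{n0} / 2 ≥ ε`. -/

def S_DEC : Prop := ∀ {V : Type} [DecidableEq V] {M : Str V} {Ω : Set V} {U B C A : Finset V}
  (n0 : ℕ), M.Amb Ω → M.Cl U Ω → M.Cl B Ω → M.IsC (U ∪ B) C Ω →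
  M.dl U + M.dl B < M.dl (U ∩ B) + M.dl C + q (n0 + 1) / 8 →
  M.IsC ((A ∩ U) ∪ (A ∩ B)) A Ω → A ⊆ C → A.card < g n0 →
  A ⊆ U ∪ B ∧ M.nic (A ∩ U) (A ∩ B) = ∅ ∧
  ∀ p ∈ U, p ∉ B → ∀ y ∈ B, y ∉ U → M.R p y →
    ∃ l ∈ lin (U ∩ B), l.1 = n0 ∧ M.On p l ∧ M.On y l

/-! ### The configuration -/

/-- The configuration which is amalgamated. -/
structure Cfg (M : Str ℕ) (Ω : Set ℕ) (b0 h : ℕ) (T U Q B A P W D : Finset ℕ)
    (σ : ℕ → ℕ → ℕ) (τ : ℕ → ℕ) (lp : ℕ → ℕ × List ℕ) : Prop where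
  rich : Rich M Ω
  ne : T.Nonempty
  cU : M.Cl U Ω
  cB : M.Cl B Ω
  cA : M.Cl A Ω
  cP : M.Cl P Ω
  cW : M.Cl W Ω
  cD : M.Cl D Ω
  BW : B ⊆ W
  PW : P ⊆ W
  UB : U ∩ B = Q
  UP : U ∩ P = Q
  AP : A ∩ P ⊆ U
  AUB : A ⊆ U ∪ B
  noinc : M.nic (A ∩ U) (A ∩ B) = ∅
  emb : ∀ t ∈ T, Emb M M W (σ t)
  img : ∀ t ∈ T, M.Cl (W.image (σ t)) Ω
  σP : ∀ t ∈ T, ∀ x ∈ P, σ t x = τ x
  τP : P.image τ = P
  sep : ∀ s ∈ T, ∀ t ∈ T, s ≠ t → ∀ x ∈ B, ∀ y ∈ B, σ s x = σ t y → x = y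
  PD : P ⊆ D
  σD : ∀ t ∈ T, B.image (σ t) ⊆ D
  card : A.card ≤ b0
  hf : (b0 : ℝ) < f (g h)
  hw : ∀ n, h ≤ n → 16 * ((T.card : ℝ) * b0) * w n ≤ a n
  lp_ : ∀ p ∈ A ∩ U, p ∉ B → ∀ y ∈ A ∩ B, y ∉ U → M.R p y →
    h < (lp p).1 ∧ M.On p (lp p) ∧ M.On y (lp p) ∧ (∀ x ∈ (lp p).2, x ∈ P) ∧
      (∃ x ∈ (lp p).2, x ∉ U) ∧ ∀ i < (lp p).1, ∀ x ∈ (pre i (lp p)).2, x ∈ Q

/-- the new edges: `y` (in `D`) and `p` (in `U`) -/
def nE (M : Str ℕ) (T U B A : Finset ℕ) (σ : ℕ → ℕ → ℕ) (y p : ℕ) : Prop :=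
  ∃ t ∈ T, ∃ x ∈ A ∩ B, x ∉ U ∧ p ∈ A ∩ U ∧ p ∉ B ∧ M.R p x ∧ σ t x = y

/-- the cost of the new edges between `XD` and `XU` -/
noncomputable def cost (M : Str ℕ) (T U B A : Finset ℕ) (σ : ℕ → ℕ → ℕ) (lp : ℕ → ℕ × List ℕ)
    (XD XU : Finset ℕ) : ℝ :=
  2 * ∑ e ∈ (XD ×ˢ XU).filter (fun e => nE M T U B A σ e.1 e.2), w (mis (lp e.2) XU)

/-- two P-closed parts which fit together -/
structure Fit (M : Str ℕ) (Ω : Set ℕ) (U Q D : Finset ℕ) (τ : ℕ → ℕ) (XD XU : Finset ℕ) : Prop where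
  pD : M.PC XD Ω
  pU : M.PC XU Ω
  sD : XD ⊆ D
  sU : XU ⊆ U
  fit : ∀ x ∈ Q, (x ∈ XU ↔ τ x ∈ XD)

/-! ### Piece CM: the common lines of the end points of a new edge

`p ∉ P` (`U ∩ P = Q ⊆ B`). `mis (lp p) XU ≤ (lp p).1 =: λ` (`lp p` has a letter outside `U ⊇ XU`). For
`i < mis` the line `pre i (lp p)` is in `lin (XU ∩ Q)` (`i < λ`) and contains `p`, `y`
(`Str.On.pre`). `Q = U ∩ B` is P-closed and `p ∉ Q`, so these are the only lines of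
`lin (XU ∩ Q)` through `p` of level `< mis`. There is none of level `≥ mis`: its initial segment
`l'` of level `mis` is in `lin (XU ∩ Q)`; if `mis < λ`, `l' = pre mis (lp p)` by uniqueness in `Q`, but this
is not contained in `XU`; if `mis = λ`, `l' = lp p` by uniqueness in `P` (P-closed, `p ∉ P`), but `lp p`
is not contained in `U`. So `cm = Σ_{i < mis} q (i+1)`, `w_sum`. -/

def S_CM : Prop := ∀ {M : Str ℕ} {Ω : Set ℕ} {b0 h : ℕ} {T U Q B A P W D : Finset ℕ}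
  {σ : ℕ → ℕ → ℕ} {τ : ℕ → ℕ} {lp : ℕ → ℕ × List ℕ}, Cfg M Ω b0 h T U Q B A P W D σ τ lp →
  ∀ XU ⊆ U, ∀ p ∈ A ∩ U, p ∉ B → ∀ y ∈ A ∩ B, y ∉ U → M.R p y →
    mis (lp p) XU ≤ (lp p).1 ∧ w 0 - M.cm (XU ∩ Q) (p, y) = w (mis (lp p) XU) ∧
      w 0 - M.cm (XU ∩ Q) (y, p) = w (mis (lp p) XU)

/-! ### Piece ALPHA

For a new edge `(y, p)`, `y ∈ XD`, `p ∈ XU`, let `i = mis (lp p) XU ≤ λ = (lp p).1`, `m = pre i (lp p)`
(for `i = λ` it is `lp p`): letters in `P`, not all in `XU`, `p` is on `m`, `p ∉ P`; so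
`(p, m) ∈ nic XU P`. We charge to it all the new edges `(y, p)`, `2 w i` each. Their number: if
`i < λ` then `m` has its letters in `Q` and they are not all in `XU`, so `τ m` is not contained in `XD`
(`fit`), and all the `y = σ t x` are on `τ m = σ t m` (`x` is on `lp p`), so there are `< N i` of them
(`pD`); `2 N_i w_i ≤ a_i / 8` (`w_le`, `N_small`). If `i = λ > h` their number is at most `T.card * b0` and
`2 (T.card b0) w_i ≤ a_i / 8` (`hw`). So `cost ≤ Σ_{nic XU P} a / 8`, and `S_REL` for `X = XU`, `C = P`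
(`XU ∩ P = XU ∩ Q`). -/

def S_ALPHA : Prop := ∀ {M : Str ℕ} {Ω : Set ℕ} {b0 h : ℕ} {T U Q B A P W D : Finset ℕ}
  {σ : ℕ → ℕ → ℕ} {τ : ℕ → ℕ} {lp : ℕ → ℕ × List ℕ}, Cfg M Ω b0 h T U Q B A P W D σ τ lp →
  ∀ XD XU, Fit M Ω U Q D τ XD XU →
    cost M T U B A σ lp XD XU ≤ (M.dl XU - M.dl (XU ∩ Q)) / 4 ∧
    M.dl (XU ∩ Q) ≤ M.dl XU ∧ (¬ XU ⊆ Q → M.dl (XU ∩ Q) < M.dl XU)

/-! ### Piece BETA

`X1 = {x ∈ P : τ x ∈ XD}`, `X1.image τ = XD ∩ P` (`τP`); `τ` is an embedding of `P` (restriction of `σ t`),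
so `X1` is P-closed in `P`, hence in `Ω`, and `dl X1 = dl (XD ∩ P)`. `XU ∩ X1 = XU ∩ Q`. By `S_SMK`
(`𝒦 = ∅`), the hull lemma for `XU ∪ X1` and `Cls`:
`dl XU + dl X1 - dl (XU ∩ Q) ≥ dl (XU ∪ X1) + ½ Σ_{nic XU X1} a ≥ f |XU ∪ X1| + ½ Σ_{nic XU X1} a`.
For a new edge `(y, p)` let `i`, `m` be as in ALPHA. (1) If `τ m` is not contained in `XD`:
`y ∉ P` (`y = σ t x`, `x ∉ U` so `x ∉ P` by `AP`, and `σ t` is injective with `σ t (P) = P`), `y` is on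
`τ m ∈ lin P`, so `(y, τ m) ∈ nic XD P`; charge to it. The number of the `p ∈ XU` with this `m` is
`< N i` since they are on `m`, which is not contained in `XU` (`pU`). So these edges cost at most
`Σ_{nic XD P} a / 8 ≤ (dl XD - dl (XD ∩ P)) / 4` (`S_REL`). (2) If `τ m` is contained in `XD` then `i = λ`
(otherwise `m` is in `Q` and `fit` gives `m ⊆ XU`) and `m` is contained in `X1`, so
`(p, m) ∈ nic XU X1`; at most `T.card * b0` new edges at `p`, `hw`: cost `≤ Σ_{nic XU X1} a / 8`. -/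

def S_BETA : Prop := ∀ {M : Str ℕ} {Ω : Set ℕ} {b0 h : ℕ} {T U Q B A P W D : Finset ℕ}
  {σ : ℕ → ℕ → ℕ} {τ : ℕ → ℕ} {lp : ℕ → ℕ × List ℕ}, Cfg M Ω b0 h T U Q B A P W D σ τ lp →
  ∀ XD XU, Fit M Ω U Q D τ XD XU → ∀ x : ℕ, x + (XU ∩ Q).card = XU.card + (XD ∩ P).card →
    f x + 3 / 4 * (M.dl XD - M.dl (XD ∩ P)) ≤
      M.dl XD + M.dl XU - M.dl (XU ∩ Q) - cost M T U B A σ lp XD XU ∧
    M.dl (XD ∩ P) ≤ M.dl XD ∧ (¬ XD ⊆ P → M.dl (XD ∩ P) < M.dl XD)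

/-! ### Piece GAMMA

Let `B' = B.image (σ t)`, closed (`S_SIM.cl_image`). Since `|XD| < g h` the initial segment of level
`h` of `lp p` is not contained in `XU` (it is in `Q` because `h < λ`, so by `fit` its image would be
in `XD`, but it has `g h` letters): `mis (lp p) XU ≤ h < λ`, and `m = pre (mis ..) (lp p)` is contained
in `Q`, `τ m` is contained in `B'` and not in `XD`.
(1) The new edges `(y, p)`, `y ∉ B'`: `(y, τ m) ∈ nic XD B'`, at most `N` vertices `p` for each, as in BETA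
(1): they cost at most `(dl XD - dl (XD ∩ B')) / 4` (`S_REL`).
(2) The new edges with `y ∈ B'`: `y = σ s x = σ t x'`, `x = x'` by `sep` (or injectivity if `s = t`); these
correspond to the pairs `(p, x)`, `p ∈ A ∩ U ∖ B`, `x ∈ A ∩ B ∖ U`, `R p x`; let `𝒦` be the set of these
pairs and their swaps, and `X2 = {x ∈ B : σ t x ∈ XD}`, P-closed, `dl X2 = dl (XD ∩ B')`,
`X2 ∩ XU = XU ∩ Q`, `A ∩ B ⊆ X2`. By `S_CM` the cost of these edges is
`Σ_{e ∈ 𝒦} (w 0 - cm (X2 ∩ XU) e)`. `S_SMK` for `X2`, `XU`, `𝒦`: the partner condition: let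
`(p, l) ∈ nic X2 XU`, and `(p, x) ∈ 𝒦`, `x` on `l`. If `l` is not contained in `A` then fewer than `N`
points of `A` are on `l` (`A` is P-closed). If `l` is contained in `A` then, as `noinc`, `(p, l)` is in
`ic (A ∩ U)` or `ic (A ∩ B)`, so in `ic XU` or in `ic X2`, a contradiction. So
`dl X2 + dl XU - dl (XU ∩ Q) - cost(2) ≥ dl (X2 ∪ XU) ≥ dl (hull of X2 ∪ XU) ≥ dl A`, the last
inequality is strict if the hull is not `A` (`A ⊆ X2 ∪ XU`, `A` closed).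
Equality is possible only if `XD ⊆ B'` (strictness in `S_REL`) and `X2 ∪ XU = A`; then
`XU = A ∩ U`, `X2 = A ∩ B`. -/

def S_GAMMA : Prop := ∀ {M : Str ℕ} {Ω : Set ℕ} {b0 h : ℕ} {T U Q B A P W D : Finset ℕ}
  {σ : ℕ → ℕ → ℕ} {τ : ℕ → ℕ} {lp : ℕ → ℕ × List ℕ}, Cfg M Ω b0 h T U Q B A P W D σ τ lp →
  ∀ XD XU, Fit M Ω U Q D τ XD XU → XD.card < g h → ∀ t ∈ T, (A ∩ B).image (σ t) ⊆ XD →
    A ∩ U ⊆ XU →
    M.dl A ≤ M.dl XD + M.dl XU - M.dl (XU ∩ Q) - cost M T U B A σ lp XD XU ∧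
    (¬ (XD = (A ∩ B).image (σ t) ∧ XU = A ∩ U) →
      M.dl A < M.dl XD + M.dl XU - M.dl (XU ∩ Q) - cost M T U B A σ lp XD XU)

/-! ### The glued structure -/

/-- `S` is the structure obtained by glueing `U` to `D` along `Q` and adding the new edges -/
structure GlS (M : Str ℕ) (T U Q B A D : Finset ℕ) (σ : ℕ → ℕ → ℕ) (τ : ℕ → ℕ)
    (S : Str (ℕ ⊕ ℕ)) : Prop where
  eD : Emb M S D Sum.inl
  eU : Emb M S U (gl Q τ)
  t2 : T2 S (D.image Sum.inl) (U.image (gl Q τ))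
  int : (D.image Sum.inl) ∩ (U.image (gl Q τ)) = (Q.image τ).image Sum.inl
  R : ∀ x ∈ D, x ∉ Q.image τ → ∀ y ∈ U, y ∉ Q →
    (S.R (Sum.inl x) (Sum.inr y) ↔ M.pt x ∧ M.pt y ∧ nE M T U B A σ x y)

/-- its universe -/
noncomputable def ZZ (U Q D : Finset ℕ) (τ : ℕ → ℕ) : Finset (ℕ ⊕ ℕ) :=
  D.image Sum.inl ∪ U.image (gl Q τ)

noncomputable def prD (D : Finset ℕ) (X : Finset (ℕ ⊕ ℕ)) : Finset ℕ :=
  D.filter fun x => (Sum.inl x : ℕ ⊕ ℕ) ∈ X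

noncomputable def prU (U Q : Finset ℕ) (τ : ℕ → ℕ) (X : Finset (ℕ ⊕ ℕ)) : Finset ℕ :=
  U.filter fun x => gl Q τ x ∈ X

/-! ### Piece CROSS: the predimension in the glued structure

`X ∩ D.image inl = (prD D X).image inl`, `X ∩ U.image gl = (prU ..).image gl`,
`X ∩ (intersection) = (XU ∩ Q).image gl` (`gl x = inl (τ x)` on `Q`). `Fit`: P-closed sets restrict
(`PC.inter` with `S_T2.pcD`, `pcU`, `PC.mono`, `S_EMB.pc`, `PC.trans`). Formula: `S_T2.dl`; the elements of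
`S.ned (X ∩ ..) (X ∩ ..)` are the pairs `(inl y, inr p)`, `(inr p, inl y)` with `y ∈ XD`, `p ∈ XU`,
`nE y p` (`nE y p` implies that `p ∉ Q`, `y ∉ Q.image τ`, both are points; and `y`, `p` with
`y ∉ Q.image τ`, `p ∉ Q` are related iff `nE y p`). For such a pair, `y = σ t x`, and a line of `X ∩ ..` is
`gl l`, `l ∈ lin (XU ∩ Q)`; `S.On (inr p) (gl l) ↔ M.On p l` (`eU`), `S.On (inl y) (gl l) ↔ M.On (σ t x) (τ l) ↔
M.On x l` (`eD`, `emb t`, as `gl l = inl (τ l)`, `τ l = σ t l`). So `S.cm = M.cm (XU ∩ Q) (p, x)` and the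
cost is `w (mis (lp p) XU)` by `S_CM`. -/

def S_CROSS : Prop := ∀ {M : Str ℕ} {Ω : Set ℕ} {b0 h : ℕ} {T U Q B A P W D : Finset ℕ}
  {σ : ℕ → ℕ → ℕ} {τ : ℕ → ℕ} {lp : ℕ → ℕ × List ℕ}, Cfg M Ω b0 h T U Q B A P W D σ τ lp →
  ∀ S : Str (ℕ ⊕ ℕ), GlS M T U Q B A D σ τ S → ∀ X : Finset (ℕ ⊕ ℕ),
    S.PC X ↑(ZZ U Q D τ) →
    Fit M Ω U Q D τ (prD D X) (prU U Q τ X) ∧
    S.dl X = M.dl (prD D X) + M.dl (prU U Q τ X) - M.dl (prU U Q τ X ∩ Q) -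
      cost M T U B A σ lp (prD D X) (prU U Q τ X) ∧
    X.card + (prU U Q τ X ∩ Q).card = (prD D X).card + (prU U Q τ X).card

/-! ### Piece KZ: the glued structure is in the class

Let `X` be P-closed, `XD = prD D X`, `XU = prU U Q τ X`, `y' = |XU| - |XU ∩ Q|`.
If `D.image inl ⊂ X` then `XD = D`, `XU ∩ Q = Q`, `XU ≠ Q`, and by CROSS and ALPHA
`dl X ≥ dl D + (3/4) (dl XU - dl (XU ∩ Q)) > dl D`; so `D.image inl` is closed (`S_T2.pcD`).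
`f |X| ≤ dl X`: Case 1, `|XU| ≤ |XD|`: `|X| = |XD| + y'`; let `j` be the least with `|XU| < g j`;
`f_step` with `x = |XD|`, `y = y'`, `z = |XU|`: `f |X| ≤ f |XD| + q j / 16 ≤ dl XD + q j / 16`, and if
`y' > 0` then `dl XU - dl (XU ∩ Q) ≥ q j / 2` (`S_CALC.up`), ALPHA. Case 2, `|XD| < |XU|`: BETA with
`x = |XU| + |XD ∩ P| - |XU ∩ Q| ≥ |XU|`(note `|XU ∩ Q| ≤ |XD ∩ P|`: `τ` maps `XU ∩ Q` injectively into
`XD ∩ P`), `y = |XD| - |XD ∩ P|`, `z = |XD|`, `j` the least with `|XD| < g j`. C1: `S_T2.c1`. -/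

def S_KZ : Prop := ∀ {M : Str ℕ} {Ω : Set ℕ} {b0 h : ℕ} {T U Q B A P W D : Finset ℕ}
  {σ : ℕ → ℕ → ℕ} {τ : ℕ → ℕ} {lp : ℕ → ℕ × List ℕ}, Cfg M Ω b0 h T U Q B A P W D σ τ lp →
  ∀ S : Str (ℕ ⊕ ℕ), GlS M T U Q B A D σ τ S →
    S.Cls ↑(ZZ U Q D τ) ∧ S.Cl (D.image Sum.inl) ↑(ZZ U Q D τ)

/-- the copy of `A` in the glued structure -/
noncomputable def th (Q B : Finset ℕ) (σ : ℕ → ℕ → ℕ) (τ : ℕ → ℕ) (t : ℕ) (x : ℕ) : ℕ ⊕ ℕ :=
  if x ∈ B then Sum.inl (σ t x) else gl Q τ x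

/-! ### Piece AT: the copies of `A` are embedded

`th t x = inl (σ t x)` for `x ∈ B`, `= gl Q τ x` for `x ∈ U` (both on `U ∩ B = Q`: `σ t x = τ x`).
Injective: if `x ∈ B`, `x' ∈ U ∖ B` then `x' ∉ Q`, so `gl x' = inr x'`. `R`: for `x, x' ∈ U` or both in `B` clear;
`x ∈ B ∖ U`, `p ∈ U ∖ B`: `S.R (inl (σ t x)) (inr p) ↔ pt, pt, nE (σ t x) p ↔ R p x` (`sep`, injectivity of
`σ t`). `on`: `l` with letters in `A`: if `M.On p l` then by `noinc` (`(p, l)` is in `ic A`, `A = (A ∩ U) ∪ (A ∩ B)`)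
`(p, l)` is in `A ∩ U` or in `A ∩ B`, and `S.On` follows; conversely if `S.On (th p) (th l)` then by
`t2.inc` it is in `D.image inl` or in `U.image gl`, i.e. `p` and `l` are in `B` or in `U` (an element of
`A` with `th t x ∈ D.image inl` is in `B`: otherwise it is in `U ∖ B`, `gl x = inr x`; an element `x` with
`th t x ∈ U.image gl` is in `U`: otherwise `x ∈ B ∖ U`, `σ t x ∈ Q.image τ` (`int`), contradiction to
injectivity of `σ t` on `W ⊇ Q`). -/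

def S_AT : Prop := ∀ {M : Str ℕ} {Ω : Set ℕ} {b0 h : ℕ} {T U Q B A P W D : Finset ℕ}
  {σ : ℕ → ℕ → ℕ} {τ : ℕ → ℕ} {lp : ℕ → ℕ × List ℕ}, Cfg M Ω b0 h T U Q B A P W D σ τ lp →
  ∀ S : Str (ℕ ⊕ ℕ), GlS M T U Q B A D σ τ S → ∀ t ∈ T,
    Emb M S A (th Q B σ τ t) ∧
    prD D (A.image (th Q B σ τ t)) = (A ∩ B).image (σ t) ∧
    prU U Q τ (A.image (th Q B σ τ t)) = A ∩ U

/-! ### Piece ATC: the copies of `A` are closed

`X0 = A.image (th t)`. P-closed in `ZZ`: (g1) if `N` points of `X0` are on `l` then there is at least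
one, so `l` is in `D.image inl` or in `U.image gl` (`t2.inc`). If `l` is in `D.image inl` but not in
`U.image gl`, its points are in `D.image inl`, they are in the image of `A ∩ B`, which is closed in
`D` (image of the closed set `A ∩ B`), so `l` is in it. The same for `U`. If `l` is in both then
`l = gl l'` with `l'` in `Q`, and the points of `A` on `l'` correspond to those of `X0` on `l`, `A` is
P-closed. (g2) let `x ∈ ZZ ∖ X0`; if `x = inl x'`, `x' ∉ Q.image τ`, the lines through `x` are in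
`D.image inl`, those in `X0` are in the image of `A ∩ B`, closed, at most one of each level; the same for
`x = inr p`; if `x = gl x'`, `x' ∈ Q`, the lines of `X0` through `x` correspond to the lines of `A`
through `x'` (each is in `U` or in `B`).
Let `X` be P-closed, `X0 ⊂ X`. If `|prD D X| ≥ g h` then `dl X ≥ f |X| ≥ f (g h) > b0 ≥ |A| ≥ dl A = dl X0`
(`KZ`, `S_EMB.dl`; `dl A ≤ wt |A|` for a closed set: `S_CLO.insert_le` and induction, or: closures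
of subsets; see below). Otherwise CROSS and GAMMA: `dl X > dl A`, because `prD D X`, `prU X` determine `X`.
(`dl A ≤ |A|`: by induction on `S ⊆ A`, `dl (cl S) ≤ |S|` with `S_CLO.insert_le`, `S_CLO.empty`, and
`cl A = A`.) -/

def S_ATC : Prop := ∀ {M : Str ℕ} {Ω : Set ℕ} {b0 h : ℕ} {T U Q B A P W D : Finset ℕ}
  {σ : ℕ → ℕ → ℕ} {τ : ℕ → ℕ} {lp : ℕ → ℕ × List ℕ}, Cfg M Ω b0 h T U Q B A P W D σ τ lp →
  ∀ S : Str (ℕ ⊕ ℕ), GlS M T U Q B A D σ τ S → ∀ t ∈ T,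
    S.Cl (A.image (th Q B σ τ t)) ↑(ZZ U Q D τ)

/-! ### Piece AMAL: the amalgam in `Ω`

`S_GLUE` (`G = H = M`, `C = D`, `A = Q`, `Z = U`, `φ = τ`, `E = nE`; `Q = U ∩ B` is closed in `U`, `τ` is an embedding
of `Q` (restriction of `σ t`), `Q.image τ = Q.image (σ t)` is closed in `Ω` hence in `D`) gives `S` with
`GlS`. By `KZ` and richness (`H = S`, `A = D.image inl`, `Z = ZZ`, the map `inl x ↦ x`) there is an
embedding `ψ'` of `ZZ` in `M` with closed image, `ψ' (inl x) = x`. `ψ x = ψ' (gl Q τ x)`; then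
`ψ' ∘ th t` is the map in the statement on `A` (`x ∈ Q`: `ψ x = τ x`); `S_AT`, `S_ATC`, `S_EMB.cl`, `S_CLO.trans`. -/

def S_AMAL : Prop := ∀ {M : Str ℕ} {Ω : Set ℕ} {b0 h : ℕ} {T U Q B A P W D : Finset ℕ}
  {σ : ℕ → ℕ → ℕ} {τ : ℕ → ℕ} {lp : ℕ → ℕ × List ℕ}, Cfg M Ω b0 h T U Q B A P W D σ τ lp →
  ∃ ψ : ℕ → ℕ, (∀ x ∈ Q, ψ x = τ x) ∧ ∀ t ∈ T,
    Emb M M A (fun x => if x ∈ B then σ t x else ψ x) ∧
    M.Cl (A.image fun x => if x ∈ B then σ t x else ψ x) Ω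

end Run7.h520.LW
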