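import Pool.Agent.Run7.h228.LWNum

/-!
# Piece NUM: existence of the parameters (helper228)
-/

namespace Run7.h520.LW

theorem exists_par : Nonempty Par := Pool.Agent.Run7.h228.LWNum.exists_par

end Run7.h520.LW
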