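import Mathlib

/-!
# The numerical parameters of the construction
-/

namespace Run7.h520.LW

/-- The parameters: `g j` is the length of the lines of level `j`, `N j` the number of points of
such a line which force it into the closure, `K j` the sparsity constants, `q j` the scales,
`w j = q (j+1) + q (j+2) + ...`, and `f` the control function. -/
structure Par where
  g : ℕ → ℕ
  N : ℕ → ℕ
  K : ℕ → ℕ
  q : ℕ → ℝ
  w : ℕ → ℝ
  f : ℕ → ℝ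
  q0 : q 0 = 1
  qpos : ∀ j, 0 < q j
  qdiv : ∀ j, ∃ m : ℕ, q j = m * q (j + 1)
  qlt : ∀ j, q (j + 1) * (2 ^ 40 * (g j : ℝ) ^ 4) ≤ q j ^ 4
  g0 : 64 ≤ g 0
  gmono : ∀ j, 8 * g j ≤ g (j + 1)
  hN : ∀ j, (N j : ℝ) * q j = 4 * g j
  hK : ∀ j, (K j : ℝ) * q j = 4
  hw : ∀ j, w j = q (j + 1) + w (j + 1)
  wpos : ∀ j, 0 < w j
  wle : ∀ j, w j ≤ 2 * q (j + 1)
  f0 : f 0 = 0
  fmono : Monotone f
  funb : ∀ c : ℝ, ∃ n, c ≤ f n
  fstep : ∀ j x y z : ℕ, y ≤ z → z ≤ x → (j = 0 ∨ g (j - 1) ≤ z) → f (x + y) ≤ f x + q j / 16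
  fsmall : ∀ x : ℕ, f x ≤ x / 8
  fup : ∀ j x : ℕ, f x ≤ g j / 8 + q (j + 1) * x / 8

end Run7.h520.LW
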